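import Mathlib
import Pool.Agent.Helper51.RG.TutteStep

set_option autoImplicit false

/-!
Degree constrained subgraphs of bipartite multigraphs, variable degrees.
-/

namespace Pool.Agent.Helper89.TS

open Finset Pool.Agent.Helper51.RG

section bf

variable {P Q E : Type} [Fintype P] [Fintype Q] [Fintype E]
  [DecidableEq P] [DecidableEq Q] [DecidableEq E]

open Classical in
/-- The neighbourhoods in the gadget graph. -/
noncomputable def nbV (p : E → P) (q : E → Q) (c : P → ℕ) (d : Q → ℕ) :
    (E ⊕ (Σ y : Q, Fin (dP q y - d y))) → Finset (E ⊕ (Σ x : P, Fin (dP p x - c x)))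
  | Sum.inl e => univ.filter (fun ρ => match ρ with
      | Sum.inl e' => e' = e
      | Sum.inr s => s.1 = p e)
  | Sum.inr s => univ.filter (fun ρ => match ρ with
      | Sum.inl e' => q e' = s.1
      | Sum.inr _ => False)

theorem hall_gadgetV (p : E → P) (q : E → Q) (c : P → ℕ) (d : Q → ℕ)
    (hbP : ∀ x, c x ≤ dP p x) (hbQ : ∀ y, d y ≤ dP q y)
    (h : ∀ (S : Finset P) (T : Finset Q), ∑ x ∈ S, c x ≤ ∑ y ∈ T, d y +
      (univ.filter fun e => p e ∈ S ∧ q e ∉ T).card)
    (A : Finset (E ⊕ (Σ y : Q, Fin (dP q y - d y)))) :
    A.card ≤ (A.biUnion (nbV p q c d)).card := by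
  classical
  set A1 : Finset E := univ.filter fun e => Sum.inl e ∈ A with hA1
  set A2 : Finset (Σ y : Q, Fin (dP q y - d y)) := univ.filter fun s => Sum.inr s ∈ A with hA2
  set T : Finset Q := A2.image Sigma.fst with hT
  set S : Finset P := A1.image p with hS
  have hcard : A.card = A1.card + A2.card := by
    have h1 : A = A1.disjSum A2 := by
      ext a
      rcases a with e | s <;> simp [hA1, hA2]
    conv_lhs => rw [h1]
    rw [Finset.card_disjSum]
  have hA2c : A2.card ≤ ∑ y ∈ T, (dP q y - d y) := by
    rw [← card_sig (fun y => dP q y - d y) T]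
    refine Finset.card_le_card ?_
    intro s hs
    simp only [mem_filter, mem_univ, true_and]
    exact mem_image_of_mem _ hs
  have hN : (A1 ∪ univ.filter fun e => q e ∈ T).card + ∑ x ∈ S, (dP p x - c x)
      ≤ (A.biUnion (nbV p q c d)).card := by
    rw [← card_sig (fun x => dP p x - c x) S, ← Finset.card_disjSum]
    refine Finset.card_le_card ?_
    intro ρ hρ
    rw [Finset.mem_biUnion]
    rcases ρ with e | s
    · rw [Finset.inl_mem_disjSum, Finset.mem_union] at hρ
      rcases hρ with he | he
      · refine ⟨Sum.inl e, by simpa [hA1] using he, ?_⟩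
        simp [nbV]
      · rw [Finset.mem_filter, hT, Finset.mem_image] at he
        obtain ⟨-, s, hs, hse⟩ := he
        refine ⟨Sum.inr s, by simpa [hA2] using hs, ?_⟩
        simp [nbV, hse]
    · rw [Finset.inr_mem_disjSum, Finset.mem_filter, hS, Finset.mem_image] at hρ
      obtain ⟨-, e, he, hse⟩ := hρ
      refine ⟨Sum.inl e, by simpa [hA1] using he, ?_⟩
      simp [nbV, hse]
  refine le_trans ?_ hN
  rw [hcard]
  have e1 : (A1 ∪ univ.filter fun e => q e ∈ T).card
      = (univ.filter fun e => q e ∈ T).card + (A1.filter fun e => q e ∉ T).card := by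
    rw [← Finset.card_union_of_disjoint]
    · congr 1
      ext e
      simp only [mem_union, mem_filter, mem_univ, true_and]
      tauto
    · rw [Finset.disjoint_left]
      intro e he he'
      simp only [mem_filter, mem_univ, true_and] at he he'
      exact he'.2 he
  have e2 : A1.card = (A1.filter fun e => q e ∈ T).card + (A1.filter fun e => q e ∉ T).card :=
    (Finset.card_filter_add_card_filter_not (s := A1) (fun e => q e ∈ T)).symm
  have e3 : (A1.filter fun e => q e ∈ T).card
      ≤ (univ.filter fun e => p e ∈ S ∧ q e ∈ T).card := by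
    refine Finset.card_le_card ?_
    intro e he
    rw [mem_filter] at he
    simp only [mem_filter, mem_univ, true_and]
    exact ⟨mem_image_of_mem _ he.1, he.2⟩
  have e4 : (univ.filter fun e => p e ∈ S).card
      = (univ.filter fun e => p e ∈ S ∧ q e ∈ T).card
        + (univ.filter fun e => p e ∈ S ∧ q e ∉ T).card := by
    have := Finset.card_filter_add_card_filter_not (s := univ.filter fun e => p e ∈ S)
      (fun e => q e ∈ T)
    rw [Finset.filter_filter, Finset.filter_filter] at this
    exact this.symm
  have e5 := sum_dP p S
  have e6 := sum_dP q T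
  have e7 : ∑ x ∈ S, (dP p x - c x) + ∑ x ∈ S, c x = ∑ x ∈ S, dP p x := by
    rw [← Finset.sum_add_distrib]
    exact Finset.sum_congr rfl fun x _ => Nat.sub_add_cancel (hbP x)
  have e8 : ∑ y ∈ T, (dP q y - d y) + ∑ y ∈ T, d y = ∑ y ∈ T, dP q y := by
    rw [← Finset.sum_add_distrib]
    exact Finset.sum_congr rfl fun x _ => Nat.sub_add_cancel (hbQ x)
  have e9 := h S T
  omega

/-- A bipartite multigraph whose cuts are large has a factor with the given degrees. -/
theorem bfactorV (p : E → P) (q : E → Q) (c : P → ℕ) (d : Q → ℕ) (hPQ : ∑ x, c x = ∑ y, d y)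
    (h : ∀ (S : Finset P) (T : Finset Q), ∑ x ∈ S, c x ≤ ∑ y ∈ T, d y +
      (univ.filter fun e => p e ∈ S ∧ q e ∉ T).card) :
    ∃ X : Finset E, (∀ x, (X.filter fun e => p e = x).card = c x) ∧
      (∀ y, (X.filter fun e => q e = y).card = d y) := by
  classical
  have hbP : ∀ x, c x ≤ dP p x := by
    intro x
    have := h {x} ∅
    simpa [dP] using this
  have hbQ : ∀ y, d y ≤ dP q y := by
    intro y
    have h1 := h univ (univ.erase y)
    have h2 : ∑ z ∈ univ.erase y, d z + d y = ∑ z, d z :=
      Finset.sum_erase_add _ _ (mem_univ y)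
    have h3 : (univ.filter fun e => p e ∈ (univ : Finset P) ∧ q e ∉ univ.erase y) =
        univ.filter fun e => q e = y := by
      ext e
      simp
    rw [h3, hPQ, ← h2] at h1
    unfold dP
    omega
  have hall := (Finset.all_card_le_biUnion_card_iff_exists_injective (nbV p q c d)).mp
    (hall_gadgetV p q c d hbP hbQ h)
  obtain ⟨f, hf, hft⟩ := hall
  have hcard : Fintype.card (E ⊕ (Σ y : Q, Fin (dP q y - d y)))
      = Fintype.card (E ⊕ (Σ x : P, Fin (dP p x - c x))) := by
    rw [Fintype.card_sum, Fintype.card_sum, Fintype.card_sigma, Fintype.card_sigma]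
    simp only [Fintype.card_fin]
    congr 1
    have e5 := sum_dP p univ
    have e6 := sum_dP q univ
    simp only [mem_univ] at e5 e6
    have e7 : ∑ x : P, (dP p x - c x) + ∑ x : P, c x = ∑ x : P, dP p x := by
      rw [← Finset.sum_add_distrib]
      exact Finset.sum_congr rfl fun x _ => Nat.sub_add_cancel (hbP x)
    have e8 : ∑ y : Q, (dP q y - d y) + ∑ y : Q, d y = ∑ y : Q, dP q y := by
      rw [← Finset.sum_add_distrib]
      exact Finset.sum_congr rfl fun x _ => Nat.sub_add_cancel (hbQ x)
    rw [hPQ] at e7
    omega
  have hbij : Function.Bijective f := (Fintype.bijective_iff_injective_and_card f).mpr ⟨hf, hcard⟩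
  refine ⟨univ.filter fun e => f (Sum.inl e) = Sum.inl e, ?_, ?_⟩
  · intro x
    have h1 : ((univ.filter fun e => p e = x ∧ f (Sum.inl e) ≠ Sum.inl e)).card
        = dP p x - c x := by
      have h2 : (univ.filter fun e => p e = x ∧ f (Sum.inl e) ≠ Sum.inl e).image
          (fun e => f (Sum.inl e))
          = (univ.filter fun s : (Σ x : P, Fin (dP p x - c x)) => s.1 ∈ ({x} : Finset P)).image
            Sum.inr := by
        ext ρ
        simp only [mem_image, mem_filter, mem_univ, true_and, mem_singleton]
        constructor
        · rintro ⟨e, ⟨he, hne⟩, rfl⟩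
          have h3 := hft (Sum.inl e)
          rcases hfe : f (Sum.inl e) with e' | s
          · rw [hfe] at h3
            simp only [nbV, mem_filter, mem_univ, true_and] at h3
            exact absurd (by rw [hfe, h3]) hne
          · rw [hfe] at h3
            simp only [nbV, mem_filter, mem_univ, true_and] at h3
            exact ⟨s, h3.trans he, rfl⟩
        · rintro ⟨s, hs, rfl⟩
          obtain ⟨l, hl⟩ := hbij.2 (Sum.inr s)
          have h3 := hft l
          rcases l with e | s'
          · rw [hl] at h3
            simp only [nbV, mem_filter, mem_univ, true_and] at h3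
            refine ⟨e, ⟨h3.symm.trans hs, ?_⟩, hl⟩
            rw [hl]
            exact fun h => by cases h
          · rw [hl] at h3
            simp [nbV] at h3
      have h4 := congrArg Finset.card h2
      rw [show (fun e : E => f (Sum.inl e)) = f ∘ Sum.inl from rfl,
        Finset.card_image_of_injective _ (hf.comp Sum.inl_injective),
        Finset.card_image_of_injective _ Sum.inr_injective,
        card_sig (fun x => dP p x - c x)] at h4
      simpa using h4
    have h5 := Finset.card_filter_add_card_filter_not (s := univ.filter fun e => p e = x)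
      (fun e => f (Sum.inl e) = Sum.inl e)
    rw [Finset.filter_filter, Finset.filter_filter] at h5
    have h6 : (univ.filter fun e => f (Sum.inl e) = Sum.inl e).filter (fun e => p e = x)
        = univ.filter fun e => p e = x ∧ f (Sum.inl e) = Sum.inl e := by
      ext e
      simp [and_comm]
    rw [h6]
    have h7 := hbP x
    have h8 : (univ.filter fun e => p e = x).card = dP p x := rfl
    simp only [ne_eq] at h1
    omega
  · intro y
    have h1 : ((univ.filter fun e => q e = y ∧ f (Sum.inl e) ≠ Sum.inl e)).card
        = dP q y - d y := by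
      have h2 : (univ.filter fun e => q e = y ∧ f (Sum.inl e) ≠ Sum.inl e).image Sum.inl
          = (univ.filter fun s : (Σ y : Q, Fin (dP q y - d y)) => s.1 ∈ ({y} : Finset Q)).image
            (fun s => f (Sum.inr s)) := by
        ext ρ
        simp only [mem_image, mem_filter, mem_univ, true_and, mem_singleton]
        constructor
        · rintro ⟨e, ⟨he, hne⟩, rfl⟩
          obtain ⟨l, hl⟩ := hbij.2 (Sum.inl e)
          have h3 := hft l
          rcases l with e' | s
          · rw [hl] at h3
            simp only [nbV, mem_filter, mem_univ, true_and] at h3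
            rw [← h3] at hl
            exact absurd hl hne
          · rw [hl] at h3
            simp only [nbV, mem_filter, mem_univ, true_and] at h3
            exact ⟨s, h3.symm.trans he, hl⟩
        · rintro ⟨s, hs, rfl⟩
          have h3 := hft (Sum.inr s)
          rcases hfe : f (Sum.inr s) with e' | s'
          · rw [hfe] at h3
            simp only [nbV, mem_filter, mem_univ, true_and] at h3
            refine ⟨e', ⟨h3.trans hs, ?_⟩, rfl⟩
            intro h4
            have h5 := hf (h4.trans hfe.symm)
            cases h5
          · rw [hfe] at h3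
            simp [nbV] at h3
      have h4 := congrArg Finset.card h2
      rw [show (fun s : (Σ y : Q, Fin (dP q y - d y)) => f (Sum.inr s)) = f ∘ Sum.inr from rfl,
        Finset.card_image_of_injective _ (hf.comp Sum.inr_injective),
        Finset.card_image_of_injective _ Sum.inl_injective,
        card_sig (fun y => dP q y - d y)] at h4
      simpa using h4
    have h5 := Finset.card_filter_add_card_filter_not (s := univ.filter fun e => q e = y)
      (fun e => f (Sum.inl e) = Sum.inl e)
    rw [Finset.filter_filter, Finset.filter_filter] at h5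
    have h6 : (univ.filter fun e => f (Sum.inl e) = Sum.inl e).filter (fun e => q e = y)
        = univ.filter fun e => q e = y ∧ f (Sum.inl e) = Sum.inl e := by
      ext e
      simp [and_comm]
    rw [h6]
    have h7 := hbQ y
    have h8 : (univ.filter fun e => q e = y).card = dP q y := rfl
    simp only [ne_eq] at h1
    omega

end bf

end Pool.Agent.Helper89.TS
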