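import Mathlib
import Pool.Agent.Helper89.TS.BF

set_option autoImplicit false

/-!
Splitting a regular multigraph of large odd cuts along a set of monochromatic edges.
-/

namespace Pool.Agent.Helper89.TS

open Finset Pool.Agent.Helper51.RG

variable {V E : Type} [Fintype V] [Fintype E]

open Classical in
theorem sum_nn' {n : ℕ} (ends : E → Sym2 V) (hl : ∀ e, ¬ (ends e).IsDiag)
    (cls : V → Fin n) (i : Fin n) :
    ∑ j, nn ends cls (i, j)
      = ∑ x ∈ univ.filter (fun x => cls x = i), (univ.filter fun e => x ∈ ends e).card := by
  have h1 : ∑ j, nn ends cls (i, j) = ∑ x ∈ univ.filter (fun x => cls x = i), ∑ y, wt ends x y := by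
    unfold nn
    rw [← Finset.sum_product']
    rw [← Finset.sum_fiberwise_of_maps_to (s := (univ.filter fun x => cls x = i) ×ˢ univ)
      (t := univ) (g := fun z : V × V => cls z.2) (fun _ _ => mem_univ _)]
    refine Finset.sum_congr rfl fun j _ => Finset.sum_congr ?_ fun _ _ => rfl
    ext ⟨x, y⟩
    simp
  rw [h1]
  exact Finset.sum_congr rfl (fun x _ => (sum_wt ends hl x))

open Classical in
/-- degree in `D` -/
noncomputable def dg (ends : E → Sym2 V) (D : Finset E) (v : V) : ℕ :=
  (D.filter fun e => v ∈ ends e).card

open Classical in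
theorem dg_sub (ends : E → Sym2 V) (D : Finset E) (v : V) :
    (univ.filter fun e : {e // e ∈ D} => v ∈ ends e.1).card = dg ends D v := by
  unfold dg
  rw [card_sub (fun e => v ∈ ends e) (fun e => e ∈ D)]
  congr 1
  ext e
  simp

theorem ar_split (r b s t n00 n01 n02 n03 n12 n22 n23 m22 m23 m33 dS dT : ℕ) (hb : b ≤ r)
    (h0 : n00 + n01 + n02 + n03 = r * s) (h2 : n02 + n12 + n22 + n23 = r * t)
    (hS : n00 + n01 ≤ dS) (hT : dT = m22 + m23) (h22 : m22 ≤ n22) (h23 : m23 ≤ n23)
    (hD : 2 * b = m22 + m33 + 2 * m23)
    (hcut : Odd (s + t) → r ≤ n01 + n03 + n12 + n23) :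
    b * s + dT ≤ b * t + dS + n03 := by
  rcases Nat.lt_trichotomy t (s + 1) with h | h | h
  · obtain ⟨k, rfl⟩ : ∃ k, s = t + k := ⟨s - t, by omega⟩
    have h3 : b * k ≤ r * k := Nat.mul_le_mul_right k hb
    rw [mul_add] at h0
    rw [mul_add]
    omega
  · subst h
    have h3 := hcut (by rw [Nat.odd_iff]; omega)
    rw [mul_add, mul_one] at h2
    rw [mul_add, mul_one]
    omega
  · obtain ⟨k, rfl⟩ : ∃ k, t = s + 2 + k := ⟨t - s - 2, by omega⟩
    have h3 : b * (s + 2 + k) = b * s + 2 * b + b * k := by ring
    rw [h3]
    omega

open Classical in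
theorem split {r b : ℕ} (ends : E → Sym2 V) (hl : ∀ e, ¬ (ends e).IsDiag)
    (hr : ∀ v, (univ.filter fun e => v ∈ ends e).card = r)
    (hcut : ∀ X : Finset V, Odd X.card →
      r ≤ (univ.filter fun e => ∃ u ∈ X, ∃ w ∉ X, ends e = s(u, w)).card)
    (side : V → Prop) (D : Finset E)
    (hD : ∀ e ∈ D, ∀ x y, ends e = s(x, y) → (side x ↔ side y))
    (hDA : ∀ e x y, ends e = s(x, y) → side x → side y → e ∈ D)
    (hb : b ≤ r)
    (hdb : ∀ v, dg ends D v ≤ b)
    (hB : ∑ v ∈ univ.filter (fun v => ¬ side v), dg ends D v = 2 * b)
    (hbal : b * (univ.filter fun v => side v).card + 2 * b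
      = b * (univ.filter fun v => ¬ side v).card
        + ∑ v ∈ univ.filter (fun v => side v), dg ends D v) :
    ∃ X : Finset E, (∀ e x y, ends e = s(x, y) → (side x ↔ side y) → (e ∈ X ↔ e ∈ D)) ∧
      ∀ v, (X.filter fun e => v ∈ ends e).card = b := by
  have hex : ∀ e : {e // ∃ x y, side x ∧ ¬ side y ∧ ends e = s(x, y)},
      ∃ x y, side x ∧ ¬ side y ∧ ends e.1 = s(x, y) := fun e => e.2
  choose p q hp hq hpq using hex
  obtain ⟨X, hX1, hX2⟩ := bfactorV (P := {v // side v}) (Q := {v // ¬ side v})
    (fun e => ⟨p e, hp e⟩) (fun e => ⟨q e, hq e⟩)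
    (fun x => b - dg ends D x.1) (fun y => b - dg ends D y.1) (by
      have e1 : ∑ x : {v // side v}, (b - dg ends D x.1) + ∑ v ∈ univ.filter (fun v => side v), dg ends D v
          = b * (univ.filter fun v => side v).card := by
        rw [← Finset.sum_subtype_eq_sum_filter (s := univ) (f := fun v => dg ends D v)
          (p := fun v => side v), Finset.subtype_univ, ← Finset.sum_add_distrib,
          Finset.sum_congr rfl (fun x _ => Nat.sub_add_cancel (hdb x.1)), Finset.sum_const,
          smul_eq_mul, mul_comm, Finset.card_univ, Fintype.card_subtype]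
      have e2 : ∑ x : {v // ¬ side v}, (b - dg ends D x.1) + ∑ v ∈ univ.filter (fun v => ¬ side v), dg ends D v
          = b * (univ.filter fun v => ¬ side v).card := by
        rw [← Finset.sum_subtype_eq_sum_filter (s := univ) (f := fun v => dg ends D v)
          (p := fun v => ¬ side v), Finset.subtype_univ, ← Finset.sum_add_distrib,
          Finset.sum_congr rfl (fun x _ => Nat.sub_add_cancel (hdb x.1)), Finset.sum_const,
          smul_eq_mul, mul_comm, Finset.card_univ, Fintype.card_subtype]
      omega) (by
      intro S T
      set cls : V → Fin 4 := fun v => if h : side v then (if (⟨v, h⟩ : {v // side v}) ∈ S then 0 else 1)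
        else (if (⟨v, h⟩ : {v // ¬ side v}) ∈ T then 2 else 3) with hcls
      have k0 : ∀ v, cls v = 0 ↔ ∃ h : side v, (⟨v, h⟩ : {v // side v}) ∈ S := by
        intro v; simp only [hcls]; split_ifs <;> simp_all
      have k1 : ∀ v, cls v = 1 ↔ ∃ h : side v, (⟨v, h⟩ : {v // side v}) ∉ S := by
        intro v; simp only [hcls]; split_ifs <;> simp_all
      have k2 : ∀ v, cls v = 2 ↔ ∃ h : ¬ side v, (⟨v, h⟩ : {v // ¬ side v}) ∈ T := by
        intro v; simp only [hcls]; split_ifs <;> simp_all
      have k3 : ∀ v, cls v = 3 ↔ ∃ h : ¬ side v, (⟨v, h⟩ : {v // ¬ side v}) ∉ T := by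
        intro v; simp only [hcls]; split_ifs <;> simp_all
      clear_value cls
      have c0 : (univ.filter fun x => cls x = 0) = S.map (Function.Embedding.subtype _) := by
        ext v
        simp only [mem_filter, mem_univ, true_and, k0, mem_map, Function.Embedding.subtype_apply,
          Subtype.exists, exists_and_right, exists_eq_right]
      have c2 : (univ.filter fun x => cls x = 2) = T.map (Function.Embedding.subtype _) := by
        ext v
        simp only [mem_filter, mem_univ, true_and, k2, mem_map, Function.Embedding.subtype_apply,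
          Subtype.exists, exists_and_right, exists_eq_right]
      set endsD : {e // e ∈ D} → Sym2 V := fun e => ends e.1 with hendsD
      have hlD : ∀ e, ¬ (endsD e).IsDiag := fun e => hl e.1
      have s0 := sum_nn ends hl hr cls 0
      have s2 := sum_nn ends hl hr cls 2
      have d0 := sum_nn' endsD hlD cls 0
      have d2 := sum_nn' endsD hlD cls 2
      have d3 := sum_nn' endsD hlD cls 3
      rw [Fin.sum_univ_four] at s0 s2 d0 d2 d3
      rw [c0, card_map] at s0
      rw [c2, card_map] at s2
      have wle : ∀ x y, wt endsD x y ≤ wt ends x y := by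
        intro x y
        unfold wt
        rw [card_sub (fun e => ends e = s(x, y)) (fun e => e ∈ D)]
        exact Finset.card_le_card fun e he => by
          simp only [mem_filter, mem_univ, true_and] at he ⊢
          exact he.2
      have nle : ∀ k, nn endsD cls k ≤ nn ends cls k := fun k => by
        unfold nn
        exact Finset.sum_le_sum fun z _ => wle _ _
      have wge : ∀ x y, side x → side y → wt ends x y ≤ wt endsD x y := by
        intro x y hx hy
        unfold wt
        rw [card_sub (fun e => ends e = s(x, y)) (fun e => e ∈ D)]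
        exact Finset.card_le_card fun e he => by
          simp only [mem_filter, mem_univ, true_and] at he ⊢
          exact ⟨hDA e x y he hx hy, he⟩
      have nge : ∀ i j, (∀ x, cls x = i → side x) → (∀ x, cls x = j → side x) →
          nn ends cls (i, j) ≤ nn endsD cls (i, j) := by
        intro i j hi hj
        unfold nn
        refine Finset.sum_le_sum fun z hz => ?_
        simp only [mem_filter, mem_univ, true_and, Prod.mk.injEq] at hz
        exact wge _ _ (hi _ hz.1) (hj _ hz.2)
      have sd0 : ∀ x, cls x = 0 → side x := fun x hx => ((k0 x).1 hx).1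
      have sd1 : ∀ x, cls x = 1 → side x := fun x hx => ((k1 x).1 hx).1
      have sd2 : ∀ x, cls x = 2 → ¬ side x := fun x hx => ((k2 x).1 hx).1
      have sd3 : ∀ x, cls x = 3 → ¬ side x := fun x hx => ((k3 x).1 hx).1
      have nz : ∀ i j, (∀ x, cls x = i → side x) → (∀ x, cls x = j → ¬ side x) →
          nn endsD cls (i, j) = 0 := by
        intro i j hi hj
        refine nn_zero _ _ _ _ fun x y hx hy => wt_zero _ _ _ fun e he => ?_
        exact hj y hy ((hD e.1 e.2 x y he).1 (hi x hx))
      have g00 := nge 0 0 sd0 sd0
      have g01 := nge 0 1 sd0 sd1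
      have z02 := nz 0 2 sd0 sd2
      have z03 := nz 0 3 sd0 sd3
      have z12 := nz 1 2 sd1 sd2
      have z13 := nz 1 3 sd1 sd3
      have l22 := nle (2, 2)
      have l23 := nle (2, 3)
      rw [nn_comm ends cls 2 0, nn_comm ends cls 2 1] at s2
      rw [nn_comm endsD cls 2 0, nn_comm endsD cls 2 1, z02, z12] at d2
      rw [nn_comm endsD cls 3 0, nn_comm endsD cls 3 1, z03, z13, nn_comm endsD cls 3 2] at d3
      have hBsum : ∑ v ∈ univ.filter (fun v => ¬ side v), dg ends D v
          = ∑ x ∈ univ.filter (fun x => cls x = 2), (univ.filter fun e => x ∈ endsD e).card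
            + ∑ x ∈ univ.filter (fun x => cls x = 3), (univ.filter fun e => x ∈ endsD e).card := by
        rw [← Finset.sum_union]
        · refine Finset.sum_congr ?_ fun x _ => (dg_sub ends D x).symm
          ext x
          simp only [mem_filter, mem_univ, true_and, mem_union, k2, k3]
          by_cases hx : side x
          · simp [hx]
          · simp only [hx, not_false_eq_true, exists_true_left, true_iff]
            exact Classical.em _
        · rw [Finset.disjoint_left]
          intro x hx hx'
          simp only [mem_filter, mem_univ, true_and] at hx hx'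
          rw [hx] at hx'
          exact absurd hx' (by decide)
      rw [← d2, ← d3, hB] at hBsum
      have hcut' : Odd (S.card + T.card) → r ≤ nn ends cls (0, 1) + nn ends cls (0, 3)
          + nn ends cls (1, 2) + nn ends cls (2, 3) := by
        intro hodd
        have h1 := hcut (univ.filter fun x => cls x = 0 ∨ cls x = 2) (by
          rw [Finset.filter_or, Finset.card_union_of_disjoint, c0, c2, card_map, card_map]
          · exact hodd
          · rw [Finset.disjoint_left]
            intro x hx hx'
            simp only [mem_filter, mem_univ, true_and] at hx hx'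
            rw [hx] at hx'
            exact absurd hx' (by decide))
        have h2 := card_pairs ends cls {(0, 1), (0, 3), (1, 2), (2, 3)} (by decide)
        rw [Finset.sum_insert (by decide), Finset.sum_insert (by decide),
          Finset.sum_insert (by decide), Finset.sum_singleton] at h2
        refine h1.trans ((Finset.card_le_card ?_).trans (le_of_eq (h2.trans (by ring))))
        intro e he
        simp only [mem_filter, mem_univ, true_and] at he ⊢
        obtain ⟨u, hu, w, hw, huw⟩ := he
        push Not at hw
        have hfin : ∀ i : Fin 4, i ≠ 0 ∧ i ≠ 2 → i = 1 ∨ i = 3 := by decide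
        rcases hu with hu | hu <;> rcases hfin _ hw with hw | hw
        · exact ⟨u, w, by rw [hu, hw]; decide, huw⟩
        · exact ⟨u, w, by rw [hu, hw]; decide, huw⟩
        · exact ⟨w, u, by rw [hu, hw]; decide, huw.trans Sym2.eq_swap⟩
        · exact ⟨u, w, by rw [hu, hw]; decide, huw⟩
      have hout : nn ends cls (0, 3) ≤ (univ.filter fun e :
          {e // ∃ x y, side x ∧ ¬ side y ∧ ends e = s(x, y)} =>
          (⟨p e, hp e⟩ : {v // side v}) ∈ S ∧ (⟨q e, hq e⟩ : {v // ¬ side v}) ∉ T).card := by
        have h2 := card_pairs ends cls {(0, 3)} (by decide)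
        rw [Finset.sum_singleton] at h2
        rw [← h2, ← Finset.card_map (Function.Embedding.subtype _)]
        refine Finset.card_le_card ?_
        intro e he
        simp only [mem_filter, mem_univ, true_and, mem_singleton, Prod.mk.injEq] at he
        obtain ⟨x, y, ⟨hx, hy⟩, hxy⟩ := he
        rw [k0] at hx
        rw [k3] at hy
        obtain ⟨hx1, hx2⟩ := hx
        obtain ⟨hy1, hy2⟩ := hy
        simp only [mem_map, mem_filter, mem_univ, true_and, Function.Embedding.subtype_apply,
          Subtype.exists]
        refine ⟨e, ⟨x, y, hx1, hy1, hxy⟩, ?_, rfl⟩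
        have h3 := hxy.symm.trans (hpq ⟨e, ⟨x, y, hx1, hy1, hxy⟩⟩)
        rw [Sym2.eq_iff] at h3
        rcases h3 with ⟨h4, h5⟩ | ⟨h4, h5⟩
        · constructor
          · convert hx2 using 2
            exact h4.symm
          · convert hy2 using 3
            exact h5.symm
        · exfalso
          have := hp ⟨e, ⟨x, y, hx1, hy1, hxy⟩⟩
          rw [← h5] at this
          exact hy1 this
      have key := ar_split r b S.card T.card (nn ends cls (0, 0)) (nn ends cls (0, 1))
        (nn ends cls (0, 2)) (nn ends cls (0, 3)) (nn ends cls (1, 2)) (nn ends cls (2, 2))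
        (nn ends cls (2, 3)) (nn endsD cls (2, 2)) (nn endsD cls (2, 3)) (nn endsD cls (3, 3))
        (∑ x ∈ univ.filter (fun x => cls x = 0), (univ.filter fun e => x ∈ endsD e).card)
        (∑ x ∈ univ.filter (fun x => cls x = 2), (univ.filter fun e => x ∈ endsD e).card)
        hb s0 (by omega) (by omega) (by omega) l22 l23 (by omega) hcut'
      have e1 : ∑ x ∈ S, (b - dg ends D x.1)
          + ∑ x ∈ univ.filter (fun x => cls x = 0), (univ.filter fun e => x ∈ endsD e).card
          = b * S.card := by
        rw [c0, Finset.sum_map, ← Finset.sum_add_distrib, mul_comm, ← smul_eq_mul,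
          ← Finset.sum_const]
        refine Finset.sum_congr rfl fun x _ => ?_
        have h3 := dg_sub ends D x.1
        simp only [Function.Embedding.subtype_apply]
        rw [h3]
        exact Nat.sub_add_cancel (hdb x.1)
      have e2 : ∑ x ∈ T, (b - dg ends D x.1)
          + ∑ x ∈ univ.filter (fun x => cls x = 2), (univ.filter fun e => x ∈ endsD e).card
          = b * T.card := by
        rw [c2, Finset.sum_map, ← Finset.sum_add_distrib, mul_comm, ← smul_eq_mul,
          ← Finset.sum_const]
        refine Finset.sum_congr rfl fun x _ => ?_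
        have h3 := dg_sub ends D x.1
        simp only [Function.Embedding.subtype_apply]
        rw [h3]
        exact Nat.sub_add_cancel (hdb x.1)
      have hgoal : ∑ x ∈ S, (b - dg ends D x.1) ≤ ∑ x ∈ T, (b - dg ends D x.1)
          + (univ.filter fun e :
          {e // ∃ x y, side x ∧ ¬ side y ∧ ends e = s(x, y)} =>
          (⟨p e, hp e⟩ : {v // side v}) ∈ S ∧ (⟨q e, hq e⟩ : {v // ¬ side v}) ∉ T).card := by
        omega
      exact hgoal)
  refine ⟨D ∪ X.map (Function.Embedding.subtype _), ?_, ?_⟩
  · intro e x y hxy hside
    rw [Finset.mem_union]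
    constructor
    · rintro (h | h)
      · exact h
      · exfalso
        simp only [mem_map, Function.Embedding.subtype_apply, Subtype.exists, exists_and_right,
          exists_eq_right] at h
        obtain ⟨⟨x', y', hx', hy', hxy'⟩, -⟩ := h
        rw [hxy, Sym2.eq_iff] at hxy'
        rcases hxy' with ⟨rfl, rfl⟩ | ⟨rfl, rfl⟩
        · exact hy' (hside.1 hx')
        · exact hy' (hside.2 hx')
    · exact Or.inl
  · intro v
    rw [Finset.filter_union, Finset.card_union_of_disjoint]
    · have h1 : ((X.map (Function.Embedding.subtype _)).filter fun e => v ∈ ends e).card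
          = (X.filter fun e => v ∈ ends e.1).card := by
        rw [Finset.filter_map, card_map]
        rfl
      rw [h1]
      have h2 : (X.filter fun e => v ∈ ends e.1).card = b - dg ends D v := by
        by_cases hv : side v
        · rw [← hX1 ⟨v, hv⟩]
          congr 1
          refine Finset.filter_congr fun e _ => ?_
          rw [hpq e, Sym2.mem_iff, Subtype.mk.injEq]
          constructor
          · rintro (h | h)
            · exact h.symm
            · exact absurd (h ▸ hv) (hq e)
          · exact fun h => Or.inl h.symm
        · rw [← hX2 ⟨v, hv⟩]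
          congr 1
          refine Finset.filter_congr fun e _ => ?_
          rw [hpq e, Sym2.mem_iff, Subtype.mk.injEq]
          constructor
          · rintro (h | h)
            · exact absurd (h ▸ hp e) hv
            · exact h.symm
          · exact fun h => Or.inr h.symm
      rw [h2]
      have h3 := hdb v
      change dg ends D v + (b - dg ends D v) = b
      omega
    · rw [Finset.disjoint_left]
      intro e he he'
      rw [mem_filter] at he he'
      obtain ⟨h3, -⟩ := he'
      simp only [mem_map, Function.Embedding.subtype_apply, Subtype.exists, exists_and_right,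
        exists_eq_right] at h3
      obtain ⟨⟨x', y', hx', hy', hxy'⟩, -⟩ := h3
      exact hy' ((hD e he.1 x' y' hxy').1 hx')

end Pool.Agent.Helper89.TS
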