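import Mathlib
import Pool.Agent.Helper89.TS.Split

set_option autoImplicit false

/-!
Regular multigraphs whose monochromatic edges form one or two intersecting families.
-/

namespace Pool.Agent.Helper89.TS

open Finset Pool.Agent.Helper51.RG

variable {V E : Type}

/-- Both ends on the same side. -/
def Mono (ends : E → Sym2 V) (side : V → Prop) (e : E) : Prop :=
  ∀ x ∈ ends e, ∀ y ∈ ends e, (side x ↔ side y)

theorem mono_iff {ends : E → Sym2 V} {side : V → Prop} {e : E} {x y : V} (h : ends e = s(x, y)) :
    Mono ends side e ↔ (side x ↔ side y) := by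
  unfold Mono
  rw [h]
  constructor
  · intro h1
    exact h1 x (Sym2.mem_mk_left x y) y (Sym2.mem_mk_right x y)
  · intro h1 p hp q hq
    rw [Sym2.mem_iff] at hp hq
    rcases hp with rfl | rfl <;> rcases hq with rfl | rfl
    · exact Iff.rfl
    · exact h1
    · exact h1.symm
    · exact Iff.rfl

theorem ends_cases (ends : E → Sym2 V) (e : E) : ∃ x y, ends e = s(x, y) := by
  induction h : ends e with
  | _ x y => exact ⟨x, y, rfl⟩

/-- Two edges with a common end. -/
def Sh (ends : E → Sym2 V) (e f : E) : Prop := ∃ v, v ∈ ends e ∧ v ∈ ends f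

theorem walk_mono {G : SimpleGraph V} (side : V → Prop) {a b : V} (p : G.Walk a b)
    (h : ∀ x y, G.Adj x y → x ∈ p.support → y ∈ p.support → ¬ (side x ↔ side y)) :
    Even p.length ↔ (side a ↔ side b) := by
  induction p with
  | nil => simp
  | @cons u v w huv q ih =>
    have h1 := ih fun x y hxy hx hy => h x y hxy
      (by rw [SimpleGraph.Walk.support_cons]; exact List.mem_cons_of_mem _ hx)
      (by rw [SimpleGraph.Walk.support_cons]; exact List.mem_cons_of_mem _ hy)
    have h2 := h u v huv (by simp) (by simp)
    rw [SimpleGraph.Walk.length_cons, Nat.even_add_one, h1]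
    tauto

theorem odd_has_mono {ends : E → Sym2 V} (hl : ∀ e, ¬ (ends e).IsDiag) (side : V → Prop) {a : V}
    (p : (gr ends).Walk a a) (hp : Odd p.length) :
    ∃ e, Mono ends side e ∧ ∀ v ∈ ends e, v ∈ p.support := by
  by_contra hcon
  push Not at hcon
  have h1 := walk_mono side p fun x y hxy hx hy hs => by
    obtain ⟨e, he⟩ := (gr_adj ends hl x y).1 hxy
    obtain ⟨v, hv, hv'⟩ := hcon e ((mono_iff he).2 hs)
    rw [he, Sym2.mem_iff] at hv
    rcases hv with rfl | rfl
    · exact hv' hx
    · exact hv' hy
  exact (Nat.not_even_iff_odd.2 hp) (h1.2 Iff.rfl)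

theorem meet_of {ends : E → Sym2 V} (hl : ∀ e, ¬ (ends e).IsDiag) (side : V → Prop)
    (hF : ∀ e f, Mono ends side e → Mono ends side f → Sh ends e f) : Meet (gr ends) := by
  intro a b p q hp hq
  obtain ⟨e, he, hep⟩ := odd_has_mono hl side p hp
  obtain ⟨f, hf, hfq⟩ := odd_has_mono hl side q hq
  obtain ⟨v, hv, hv'⟩ := hF e f he hf
  exact ⟨v, hep v hv, hfq v hv'⟩

open Classical in
theorem oneFam [Fintype V] [Fintype E] {k : ℕ} (ends : E → Sym2 V) (hl : ∀ e, ¬ (ends e).IsDiag)
    (hr : ∀ v, (univ.filter fun e => v ∈ ends e).card = k) (hV : Even (Fintype.card V))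
    (side : V → Prop) (hF : ∀ e f, Mono ends side e → Mono ends side f → Sh ends e f) :
    ∃ c : E → Fin k, Proper ends c :=
  noTwoOdd k E ends hl hr hV (meet_of hl side hF)

open Classical in
/-- First family a full star. -/
theorem starFam [Fintype V] [Fintype E] {k : ℕ} (ends : E → Sym2 V) (hl : ∀ e, ¬ (ends e).IsDiag)
    (hr : ∀ v, (univ.filter fun e => v ∈ ends e).card = k) (hV : Even (Fintype.card V))
    (side : V → Prop) (F1 : Finset E) (h1 : F1.card = k) (hm : ∀ e ∈ F1, Mono ends side e)
    (hF : ∀ e f, e ∉ F1 → f ∉ F1 → Mono ends side e → Mono ends side f → Sh ends e f)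
    (u : V) (hu : ∀ e ∈ F1, u ∈ ends e) : ∃ c : E → Fin k, Proper ends c := by
  have hF1 : F1 = univ.filter fun e => u ∈ ends e := by
    refine Finset.eq_of_subset_of_card_le (fun e he => ?_) ?_
    · simp only [mem_filter, mem_univ, true_and]
      exact hu e he
    · rw [hr u, h1]
  have key : ∀ e, Mono ends (fun v => if v = u then ¬ side v else side v) e →
      e ∉ F1 ∧ Mono ends side e := by
    intro e he
    obtain ⟨x, y, hxy⟩ := ends_cases ends e
    have hne : x ≠ y := by
      rintro rfl
      exact hl e (by rw [hxy]; rfl)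
    rw [mono_iff hxy] at he
    rw [mono_iff hxy]
    by_cases hx : x = u
    · exfalso
      have hy : y ≠ u := fun h => hne (hx.trans h.symm)
      have h2 := hm e (by rw [hF1]; simp [hxy, hx])
      rw [mono_iff hxy] at h2
      simp only [hx, hy, if_true, if_false] at he
      rw [hx] at h2
      tauto
    · by_cases hy : y = u
      · exfalso
        have h2 := hm e (by rw [hF1]; simp [hxy, hy])
        rw [mono_iff hxy] at h2
        simp only [hx, hy, if_true, if_false] at he
        rw [hy] at h2
        tauto
      · simp only [hx, hy, if_false] at he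
        refine ⟨?_, he⟩
        rw [hF1]
        simp only [mem_filter, mem_univ, true_and, hxy, Sym2.mem_iff, not_or]
        exact ⟨Ne.symm hx, Ne.symm hy⟩
  refine oneFam ends hl hr hV (fun v => if v = u then ¬ side v else side v) ?_
  intro e f he hf
  exact hF e f (key e he).1 (key f hf).1 (key e he).2 (key f hf).2

/-- An intersecting family is a star or a triangle. -/
theorem star_or_tri {ends : E → Sym2 V} (hl : ∀ e, ¬ (ends e).IsDiag) (F : Set E)
    (hF : ∀ e ∈ F, ∀ f ∈ F, Sh ends e f) (hne : F.Nonempty) :
    (∃ u, ∀ e ∈ F, u ∈ ends e) ∨ ∃ a b c : V, a ≠ b ∧ b ≠ c ∧ a ≠ c ∧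
      (∃ e ∈ F, ends e = s(a, b)) ∧ (∃ e ∈ F, ends e = s(b, c)) ∧ (∃ e ∈ F, ends e = s(a, c)) ∧
      ∀ e ∈ F, ends e = s(a, b) ∨ ends e = s(b, c) ∨ ends e = s(a, c) := by
  by_cases hs : ∃ u, ∀ e ∈ F, u ∈ ends e
  · exact Or.inl hs
  · right
    push Not at hs
    obtain ⟨e, he⟩ := hne
    obtain ⟨a, b, hab⟩ := ends_cases ends e
    have hne : a ≠ b := by
      rintro rfl
      exact hl e (by rw [hab]; rfl)
    obtain ⟨f, hf, haf⟩ := hs a
    obtain ⟨g, hg, hbg⟩ := hs b
    -- `f` contains `b`, `g` contains `a`
    have hbf : b ∈ ends f := by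
      obtain ⟨v, hv, hv'⟩ := hF e he f hf
      rw [hab, Sym2.mem_iff] at hv
      rcases hv with rfl | rfl
      · exact absurd hv' haf
      · exact hv'
    have hag : a ∈ ends g := by
      obtain ⟨v, hv, hv'⟩ := hF e he g hg
      rw [hab, Sym2.mem_iff] at hv
      rcases hv with rfl | rfl
      · exact hv'
      · exact absurd hv' hbg
    obtain ⟨c, hc⟩ := hbf
    obtain ⟨d, hd⟩ := hag
    have hca : c ≠ a := by
      rintro rfl
      exact haf (by rw [hc]; exact Sym2.mem_mk_right _ _)
    have hcb : b ≠ c := by
      rintro rfl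
      exact hl f (by rw [hc]; rfl)
    have hdb : d ≠ b := by
      rintro rfl
      exact hbg (by rw [hd]; exact Sym2.mem_mk_right _ _)
    have hcd : d = c := by
      obtain ⟨v, hv, hv'⟩ := hF f hf g hg
      rw [hc, Sym2.mem_iff] at hv
      rw [hd, Sym2.mem_iff] at hv'
      rcases hv with rfl | rfl
      · rcases hv' with h | h
        · exact absurd h.symm hne
        · exact absurd h.symm hdb
      · rcases hv' with h | h
        · exact absurd h hca
        · exact h.symm
    subst hcd
    refine ⟨a, b, d, hne, hcb, hca.symm, ⟨e, he, hab⟩, ⟨f, hf, hc⟩, ⟨g, hg, hd⟩, ?_⟩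
    intro x hx
    obtain ⟨p, q, hpq⟩ := ends_cases ends x
    have hpq' : p ≠ q := by
      rintro rfl
      exact hl x (by rw [hpq]; rfl)
    obtain ⟨v1, h1, h1'⟩ := hF x hx e he
    obtain ⟨v2, h2, h2'⟩ := hF x hx f hf
    obtain ⟨v3, h3, h3'⟩ := hF x hx g hg
    rw [hpq, Sym2.mem_iff] at h1 h2 h3
    rw [hab, Sym2.mem_iff] at h1'
    rw [hc, Sym2.mem_iff] at h2'
    rw [hd, Sym2.mem_iff] at h3'
    rw [hpq]
    simp only [Sym2.eq_iff]
    have k1 : (p = a ∨ q = a) ∨ (p = b ∨ q = b) := by
      rcases h1 with rfl | rfl <;> rcases h1' with rfl | rfl <;> simp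
    have k2 : (p = b ∨ q = b) ∨ (p = d ∨ q = d) := by
      rcases h2 with rfl | rfl <;> rcases h2' with rfl | rfl <;> simp
    have k3 : (p = a ∨ q = a) ∨ (p = d ∨ q = d) := by
      rcases h3 with rfl | rfl <;> rcases h3' with rfl | rfl <;> simp
    clear h1 h2 h3 h1' h2' h3'
    by_cases pa : p = a
    · by_cases qb : q = b
      · exact Or.inl (Or.inl ⟨pa, qb⟩)
      · by_cases qd : q = d
        · exact Or.inr (Or.inr (Or.inl ⟨pa, qd⟩))
        · exfalso
          rcases k2 with (h | h) | (h | h)
          · exact hne (pa.symm.trans h)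
          · exact qb h
          · exact hca (h.symm.trans pa)
          · exact qd h
    · by_cases pb : p = b
      · by_cases qa : q = a
        · exact Or.inl (Or.inr ⟨pb, qa⟩)
        · by_cases qd : q = d
          · exact Or.inr (Or.inl (Or.inl ⟨pb, qd⟩))
          · exfalso
            rcases k3 with (h | h) | (h | h)
            · exact pa h
            · exact qa h
            · exact hcb (pb.symm.trans h)
            · exact qd h
      · by_cases pd : p = d
        · by_cases qa : q = a
          · exact Or.inr (Or.inr (Or.inr ⟨pd, qa⟩))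
          · by_cases qb : q = b
            · exact Or.inr (Or.inl (Or.inr ⟨pd, qb⟩))
            · exfalso
              rcases k1 with (h | h) | (h | h)
              · exact pa h
              · exact qa h
              · exact pb h
              · exact qb h
        · exfalso
          have qa : q = a ∨ q = b := by
            rcases k1 with (h | h) | (h | h)
            · exact absurd h pa
            · exact Or.inl h
            · exact absurd h pb
            · exact Or.inr h
          rcases qa with h | h
          · rcases k2 with (h' | h') | (h' | h')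
            · exact pb h'
            · exact hne (h.symm.trans h')
            · exact pd h'
            · exact hca (h'.symm.trans h)
          · rcases k3 with (h' | h') | (h' | h')
            · exact pa h'
            · exact hne (h'.symm.trans h)
            · exact pd h'
            · exact hcb (h.symm.trans h')

end Pool.Agent.Helper89.TS
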