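import Mathlib
import Pool.Agent.Helper89.TS.Fam

set_option autoImplicit false

/-!
First family a full triangle.
-/

namespace Pool.Agent.Helper89.TS

open Finset Pool.Agent.Helper51.RG

variable {V E : Type}

open Classical in
/-- contraction of the triangle to `a` -/
noncomputable def pr (a b c : V) (hab : a ≠ b) (hac : a ≠ c) (v : V) : {v : V // v ≠ b ∧ v ≠ c} :=
  if h : v ≠ b ∧ v ≠ c then ⟨v, h⟩ else ⟨a, hab, hac⟩

theorem pr_eq {a b c : V} (hab : a ≠ b) (hac : a ≠ c) {v w : V}
    (h : pr a b c hab hac v = pr a b c hab hac w) :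
    v = w ∨ ((v = a ∨ v = b ∨ v = c) ∧ (w = a ∨ w = b ∨ w = c)) := by
  unfold pr at h
  by_cases hv : v ≠ b ∧ v ≠ c
  · by_cases hw : w ≠ b ∧ w ≠ c
    · rw [dif_pos hv, dif_pos hw, Subtype.mk.injEq] at h
      exact Or.inl h
    · rw [dif_pos hv, dif_neg hw, Subtype.mk.injEq] at h
      right
      refine ⟨Or.inl h, Or.inr ?_⟩
      by_contra hc
      exact hw (not_or.1 hc)
  · by_cases hw : w ≠ b ∧ w ≠ c
    · rw [dif_neg hv, dif_pos hw, Subtype.mk.injEq] at h
      right
      refine ⟨Or.inr ?_, Or.inl h.symm⟩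
      by_contra hc
      exact hv (not_or.1 hc)
    · right
      refine ⟨Or.inr ?_, Or.inr ?_⟩
      · by_contra hc
        exact hv (not_or.1 hc)
      · by_contra hc
        exact hw (not_or.1 hc)

theorem pr_tri {a b c : V} (hab : a ≠ b) (hac : a ≠ c) {v : V}
    (h : v = a ∨ v = b ∨ v = c) : pr a b c hab hac v = ⟨a, hab, hac⟩ := by
  unfold pr
  rcases h with rfl | rfl | rfl
  · rw [dif_pos ⟨hab, hac⟩]
  · rw [dif_neg (fun h => h.1 rfl)]
  · rw [dif_neg (fun h => h.2 rfl)]

open Classical in
theorem triFam [Fintype V] [Fintype E] {k : ℕ} (ends : E → Sym2 V) (hl : ∀ e, ¬ (ends e).IsDiag)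
    (hr : ∀ v, (univ.filter fun e => v ∈ ends e).card = k) (hV : Even (Fintype.card V))
    (side : V → Prop) (F1 : Finset E) (h1 : F1.card = k) (a b c : V) (hab : a ≠ b) (hbc : b ≠ c)
    (hac : a ≠ c)
    (hT : ∀ e, e ∈ F1 ↔ (ends e = s(a, b) ∨ ends e = s(b, c) ∨ ends e = s(a, c)))
    (hs1 : side a ↔ side b) (hs2 : side a ↔ side c)
    (hF : ∀ e f, e ∉ F1 → f ∉ F1 → Mono ends side e → Mono ends side f → Sh ends e f) :
    ∃ c : E → Fin k, Proper ends c := by
  -- an edge with two ends in the triangle is in `F1`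
  have hin : ∀ e v w, v ∈ ends e → w ∈ ends e → v ≠ w → (v = a ∨ v = b ∨ v = c) →
      (w = a ∨ w = b ∨ w = c) → e ∈ F1 := by
    intro e v w hv hw hvw hv' hw'
    rw [hT]
    have h2 : ends e = s(v, w) := (Sym2.mem_and_mem_iff hvw).1 ⟨hv, hw⟩
    rw [h2]
    rcases hv' with rfl | rfl | rfl <;> rcases hw' with rfl | rfl | rfl <;>
      simp_all [Sym2.eq_swap]
  -- ends of edges in `F1`
  have hout : ∀ e ∈ F1, ∀ v ∈ ends e, v = a ∨ v = b ∨ v = c := by
    intro e he v hv
    rw [hT] at he
    rcases he with h | h | h <;> rw [h, Sym2.mem_iff] at hv <;> tauto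
  set ends' : {e : E // e ∉ F1} → Sym2 {v : V // v ≠ b ∧ v ≠ c} :=
    fun e => (ends e.1).map (pr a b c hab hac) with hends'
  have hl' : ∀ e, ¬ (ends' e).IsDiag := by
    intro e he
    obtain ⟨x, y, hxy⟩ := ends_cases ends e.1
    have hne : x ≠ y := by
      rintro rfl
      exact hl e.1 (by rw [hxy]; rfl)
    simp only [hends', hxy, Sym2.map_mk, Sym2.mk_isDiag_iff] at he
    rcases pr_eq hab hac he with h | ⟨h, h'⟩
    · exact hne h
    · exact e.2 (hin e.1 x y (by rw [hxy]; simp) (by rw [hxy]; simp) hne h h')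
  -- counting
  have hcnt : ∀ t : V, (univ.filter fun e => e ∈ F1 ∧ t ∉ ends e).card
      = (univ.filter fun e => e ∉ F1 ∧ t ∈ ends e).card := by
    intro t
    have e1 := Finset.card_filter_add_card_filter_not (s := univ.filter fun e => t ∈ ends e)
      (fun e => e ∈ F1)
    have e2 := Finset.card_filter_add_card_filter_not (s := univ.filter fun e => e ∈ F1)
      (fun e => t ∈ ends e)
    rw [Finset.filter_filter, Finset.filter_filter] at e1 e2
    rw [hr t] at e1
    have e3 : (univ.filter fun e => e ∈ F1) = F1 := by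
      ext e
      simp
    rw [e3, h1] at e2
    have e4 : (univ.filter fun e => t ∈ ends e ∧ e ∈ F1) = univ.filter fun e => e ∈ F1 ∧ t ∈ ends e := by
      ext e
      simp [and_comm]
    have e5 : (univ.filter fun e => t ∈ ends e ∧ e ∉ F1) = univ.filter fun e => e ∉ F1 ∧ t ∈ ends e := by
      ext e
      simp [and_comm]
    rw [e4, e5] at e1
    omega
  have hr' : ∀ v', (univ.filter fun e => v' ∈ ends' e).card = k := by
    intro v'
    have hmem : ∀ e : {e : E // e ∉ F1}, v' ∈ ends' e ↔ ∃ x ∈ ends e.1, pr a b c hab hac x = v' := by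
      intro e
      simp only [hends', Sym2.mem_map]
    by_cases hv : v'.1 = a
    · have hv2 : v' = ⟨a, hab, hac⟩ := Subtype.ext hv
      have h2 : ∀ e : {e : E // e ∉ F1}, v' ∈ ends' e ↔ (a ∈ ends e.1 ∨ b ∈ ends e.1 ∨ c ∈ ends e.1) := by
        intro e
        rw [hmem]
        constructor
        · rintro ⟨x, hx, hx'⟩
          rw [hv2] at hx'
          have h3 : pr a b c hab hac x = pr a b c hab hac a := by
            rw [hx', pr_tri hab hac (Or.inl rfl)]
          rcases pr_eq hab hac h3 with h | ⟨h, -⟩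
          · exact Or.inl (h ▸ hx)
          · rcases h with h | h | h
            · exact Or.inl (h ▸ hx)
            · exact Or.inr (Or.inl (h ▸ hx))
            · exact Or.inr (Or.inr (h ▸ hx))
        · rintro (h | h | h)
          · exact ⟨a, h, by rw [hv2]; exact pr_tri hab hac (Or.inl rfl)⟩
          · exact ⟨b, h, by rw [hv2]; exact pr_tri hab hac (Or.inr (Or.inl rfl))⟩
          · exact ⟨c, h, by rw [hv2]; exact pr_tri hab hac (Or.inr (Or.inr rfl))⟩
      have h3 : (univ.filter fun e : {e : E // e ∉ F1} => v' ∈ ends' e).card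
          = (univ.filter fun e => e ∉ F1 ∧ (a ∈ ends e ∨ b ∈ ends e ∨ c ∈ ends e)).card := by
        rw [← card_sub (fun e => a ∈ ends e ∨ b ∈ ends e ∨ c ∈ ends e) (fun e => e ∉ F1)]
        congr 1
        ext e
        simp only [mem_filter, mem_univ, true_and]
        exact h2 e
      rw [h3]
      have h4 : (univ.filter fun e => e ∉ F1 ∧ (a ∈ ends e ∨ b ∈ ends e ∨ c ∈ ends e))
          = ((univ.filter fun e => e ∉ F1 ∧ a ∈ ends e) ∪ (univ.filter fun e => e ∉ F1 ∧ b ∈ ends e))
            ∪ (univ.filter fun e => e ∉ F1 ∧ c ∈ ends e) := by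
        ext e
        simp only [mem_filter, mem_univ, true_and, mem_union]
        tauto
      rw [h4, Finset.card_union_of_disjoint, Finset.card_union_of_disjoint, ← hcnt a, ← hcnt b,
        ← hcnt c, ← Finset.card_union_of_disjoint, ← Finset.card_union_of_disjoint]
      · rw [← h1]
        congr 1
        ext e
        simp only [mem_filter, mem_univ, true_and, mem_union]
        constructor
        · tauto
        · intro he
          rw [hT] at he
          have he' := (hT e).2 he
          rcases he with h | h | h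
          · right
            refine ⟨he', ?_⟩
            rw [h, Sym2.mem_iff]
            push Not
            exact ⟨hac.symm, hbc.symm⟩
          · left; left
            refine ⟨he', ?_⟩
            rw [h, Sym2.mem_iff]
            push Not
            exact ⟨hab, hac⟩
          · left; right
            refine ⟨he', ?_⟩
            rw [h, Sym2.mem_iff]
            push Not
            exact ⟨hab.symm, hbc⟩
      · rw [Finset.disjoint_left]
        intro e he he'
        simp only [mem_filter, mem_univ, true_and, mem_union] at he he'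
        have h5 := (hT e).1 he'.1
        rcases h5 with h | h | h <;> rw [h] at he he' <;>
          simp [hab, hbc, hac, hab.symm, hbc.symm, hac.symm] at he he'
      · rw [Finset.disjoint_left]
        intro e he he'
        simp only [mem_filter, mem_univ, true_and] at he he'
        have h5 := (hT e).1 he'.1
        rcases h5 with h | h | h <;> rw [h] at he he' <;>
          simp [hab, hbc, hac, hab.symm, hbc.symm, hac.symm] at he he'
      · rw [Finset.disjoint_left]
        intro e he he'
        simp only [mem_filter, mem_univ, true_and] at he he'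
        exact he.1 (hin e a b he.2 he'.2 hab (Or.inl rfl) (Or.inr (Or.inl rfl)))
      · rw [Finset.disjoint_left]
        intro e he he'
        simp only [mem_filter, mem_univ, true_and, mem_union] at he he'
        rcases he with he | he
        · exact he.1 (hin e a c he.2 he'.2 hac (Or.inl rfl) (Or.inr (Or.inr rfl)))
        · exact he.1 (hin e b c he.2 he'.2 hbc (Or.inr (Or.inl rfl)) (Or.inr (Or.inr rfl)))
    · have hv' : ¬ (v'.1 = a ∨ v'.1 = b ∨ v'.1 = c) := by
        have := v'.2
        tauto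
      have h2 : ∀ e : {e : E // e ∉ F1}, v' ∈ ends' e ↔ v'.1 ∈ ends e.1 := by
        intro e
        rw [hmem]
        have h3 : pr a b c hab hac v'.1 = v' := by
          unfold pr
          rw [dif_pos v'.2]
        constructor
        · rintro ⟨x, hx, hx'⟩
          rcases pr_eq hab hac (hx'.trans h3.symm) with h | ⟨-, h⟩
          · rw [← h]
            exact hx
          · exact absurd h hv'
        · intro h
          exact ⟨v'.1, h, h3⟩
      have h3 : (univ.filter fun e : {e : E // e ∉ F1} => v' ∈ ends' e).card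
          = (univ.filter fun e => e ∉ F1 ∧ v'.1 ∈ ends e).card := by
        rw [← card_sub (fun e => v'.1 ∈ ends e) (fun e => e ∉ F1)]
        congr 1
        ext e
        simp only [mem_filter, mem_univ, true_and]
        exact h2 e
      rw [h3, ← hr v'.1]
      congr 1
      ext e
      simp only [mem_filter, mem_univ, true_and]
      exact ⟨fun h => h.2, fun h => ⟨fun he => hv' (hout e he _ h), h⟩⟩
  have hV' : Even (Fintype.card {v : V // v ≠ b ∧ v ≠ c}) := by
    have h2 : Fintype.card {v : V // v ≠ b ∧ v ≠ c} + 2 = Fintype.card V := by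
      rw [Fintype.card_subtype]
      have h3 : (univ.filter fun v : V => v ≠ b ∧ v ≠ c) = (univ.erase b).erase c := by
        ext v
        simp only [mem_filter, mem_univ, true_and, mem_erase, and_true]
        tauto
      rw [h3, Finset.card_erase_of_mem (by simp [hbc.symm]), Finset.card_erase_of_mem (mem_univ b),
        Finset.card_univ]
      have h4 : 2 ≤ Fintype.card V := by
        rw [← Finset.card_univ, ← Finset.card_pair hbc]
        exact Finset.card_le_card (subset_univ _)
      omega
    rw [← h2] at hV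
    rw [Nat.even_add] at hV
    exact hV.2 (by decide)
  have hside : ∀ v, side (pr a b c hab hac v).1 ↔ side v := by
    intro v
    unfold pr
    by_cases hv : v ≠ b ∧ v ≠ c
    · rw [dif_pos hv]
    · rw [dif_neg hv]
      have : v = b ∨ v = c := by
        by_contra hc
        exact hv (not_or.1 hc)
      rcases this with rfl | rfl
      · exact hs1
      · exact hs2
  have hmono' : ∀ e, Mono ends' (fun v => side v.1) e → Mono ends side e.1 := by
    intro e he
    obtain ⟨x, y, hxy⟩ := ends_cases ends e.1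
    rw [mono_iff hxy]
    have h2 : ends' e = s(pr a b c hab hac x, pr a b c hab hac y) := by
      simp only [hends', hxy, Sym2.map_mk]
    rw [mono_iff h2, hside, hside] at he
    exact he
  have hsh : ∀ (e f : {e : E // e ∉ F1}), Sh ends e.1 f.1 → Sh ends' e f := by
    rintro e f ⟨v, hv, hv'⟩
    refine ⟨pr a b c hab hac v, ?_, ?_⟩
    · simp only [hends', Sym2.mem_map]
      exact ⟨v, hv, rfl⟩
    · simp only [hends', Sym2.mem_map]
      exact ⟨v, hv', rfl⟩
  obtain ⟨c', hc'⟩ := oneFam (k := k) ends' hl' (fun v => by convert hr' v) hV'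
    (fun v => side v.1) (fun e f he hf =>
    hsh e f (hF e.1 f.1 e.2 f.2 (hmono' e he) (hmono' f hf)))
  -- extension
  have hψ : ∀ t : V, Nonempty ({e : E // e ∈ F1 ∧ t ∉ ends e} ≃ {e : E // e ∉ F1 ∧ t ∈ ends e}) := by
    intro t
    refine ⟨Fintype.equivOfCardEq ?_⟩
    rw [Fintype.card_subtype, Fintype.card_subtype]
    exact hcnt t
  have ψ := fun t => (hψ t).some
  have hopp : ∀ e : {e : E // e ∈ F1}, ∃ t, t ∉ ends e.1 ∧ (t = a ∨ t = b ∨ t = c) := by
    rintro ⟨e, he⟩
    rw [hT] at he
    rcases he with h | h | h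
    · refine ⟨c, ?_, Or.inr (Or.inr rfl)⟩
      rw [h, Sym2.mem_iff]
      push Not
      exact ⟨hac.symm, hbc.symm⟩
    · refine ⟨a, ?_, Or.inl rfl⟩
      rw [h, Sym2.mem_iff]
      push Not
      exact ⟨hab, hac⟩
    · refine ⟨b, ?_, Or.inr (Or.inl rfl)⟩
      rw [h, Sym2.mem_iff]
      push Not
      exact ⟨hab.symm, hbc⟩
  choose opp hopp1 hopp2 using hopp
  set g : {e : E // e ∈ F1} → {e : E // e ∉ F1} := fun e =>
    ⟨(ψ (opp e) ⟨e.1, e.2, hopp1 e⟩).1, (ψ (opp e) ⟨e.1, e.2, hopp1 e⟩).2.1⟩ with hg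
  have hg1 : ∀ e, opp e ∈ ends (g e).1 := fun e => (ψ (opp e) ⟨e.1, e.2, hopp1 e⟩).2.2
  have hshT : ∀ (e f : {e : E // e ∉ F1}) (v w : V), (v = a ∨ v = b ∨ v = c) →
      (w = a ∨ w = b ∨ w = c) → v ∈ ends e.1 → w ∈ ends f.1 → Sh ends' e f := by
    intro e f v w hv hw hve hwf
    refine ⟨⟨a, hab, hac⟩, ?_, ?_⟩
    · simp only [hends', Sym2.mem_map]
      exact ⟨v, hve, pr_tri hab hac hv⟩
    · simp only [hends', Sym2.mem_map]
      exact ⟨w, hwf, pr_tri hab hac hw⟩
  have hginj : ∀ e f, g e = g f → e = f := by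
    intro e f hef
    by_cases ho : opp e = opp f
    · have h2 : (ψ (opp e) ⟨e.1, e.2, hopp1 e⟩) = (ψ (opp e) ⟨f.1, f.2, ho ▸ hopp1 f⟩) := by
        apply Subtype.ext
        have h3 := congrArg Subtype.val hef
        simp only [hg] at h3
        rw [h3]
        have h4 : ∀ (t : V) (ht : t = opp f) (h : t ∉ ends f.1),
            (ψ (opp f) ⟨f.1, f.2, hopp1 f⟩).1 = (ψ t ⟨f.1, f.2, h⟩).1 := by
          intro t ht h
          subst ht
          rfl
        exact h4 (opp e) ho (ho ▸ hopp1 f)
      have h3 := (ψ (opp e)).injective h2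
      rw [Subtype.mk.injEq] at h3
      exact Subtype.ext h3
    · exfalso
      have h2 := hg1 e
      have h3 := hg1 f
      rw [← hef] at h3
      exact (g e).2 (hin _ _ _ h2 h3 ho (hopp2 e) (hopp2 f))
  refine ⟨fun e => if h : e ∈ F1 then c' (g ⟨e, h⟩) else c' ⟨e, h⟩, ?_⟩
  rintro e₁ e₂ hne ⟨v, hv1, hv2⟩
  by_cases m1 : e₁ ∈ F1 <;> by_cases m2 : e₂ ∈ F1
  · simp only [m1, m2, dite_true]
    refine hc' _ _ ?_ ?_
    · intro h
      exact hne (congrArg Subtype.val (hginj _ _ h))
    · exact hshT _ _ _ _ (hopp2 _) (hopp2 _) (hg1 _) (hg1 _)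
  · simp only [m1, m2, dite_true, dite_false]
    have hvT := hout e₁ m1 v hv1
    refine hc' _ _ ?_ ?_
    · intro h
      have h2 := hg1 ⟨e₁, m1⟩
      rw [h] at h2
      refine m2 (hin e₂ _ _ h2 hv2 ?_ (hopp2 _) hvT)
      intro h3
      exact hopp1 ⟨e₁, m1⟩ (h3 ▸ hv1)
    · exact hshT _ _ _ _ (hopp2 _) hvT (hg1 _) hv2
  · simp only [m1, m2, dite_true, dite_false]
    have hvT := hout e₂ m2 v hv2
    refine hc' _ _ ?_ ?_
    · intro h
      have h2 := hg1 ⟨e₂, m2⟩
      rw [← h] at h2
      refine m1 (hin e₁ _ _ h2 hv1 ?_ (hopp2 _) hvT)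
      intro h3
      exact hopp1 ⟨e₂, m2⟩ (h3 ▸ hv2)
    · exact hshT _ _ _ _ hvT (hopp2 _) hv1 (hg1 _)
  · simp only [m1, m2, dite_false]
    exact hc' _ _ (fun h => hne (congrArg Subtype.val h)) (hsh _ _ ⟨v, hv1, hv2⟩)

end Pool.Agent.Helper89.TS
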