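import Mathlib
import Pool.Agent.Helper89.TS.Tri

set_option autoImplicit false

/-!
`r`-graphs whose monochromatic edges (for a 2-colouring of the vertices) form two intersecting
families are class 1.
-/

namespace Pool.Agent.Helper89.TS

open Finset Pool.Agent.Helper51.RG

variable {V E : Type}

open Classical in
theorem dc (ends : E → Sym2 V) (T : Finset V) (D : Finset E) :
    ∑ t ∈ T, (D.filter fun e => t ∈ ends e).card = ∑ e ∈ D, (T.filter fun t => t ∈ ends e).card :=
  Finset.sum_card_bipartiteAbove_eq_sum_card_bipartiteBelow (r := fun (t : V) (e : E) => t ∈ ends e)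

open Classical in
theorem cnt_ends (T : Finset V) {x y : V} (hxy : x ≠ y) :
    (T.filter fun v => v ∈ s(x, y)).card = (if x ∈ T then 1 else 0) + (if y ∈ T then 1 else 0) := by
  have h1 : (T.filter fun v => v ∈ s(x, y)) = (T.filter fun v => v = x) ∪ (T.filter fun v => v = y) := by
    ext v
    simp only [mem_filter, mem_union, Sym2.mem_iff]
    tauto
  have h2 : ∀ z : V, (T.filter fun v => v = z).card = if z ∈ T then 1 else 0 := by
    intro z
    by_cases hz : z ∈ T
    · rw [if_pos hz, Finset.card_eq_one]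
      refine ⟨z, ?_⟩
      ext v
      simp only [mem_filter, mem_singleton]
      exact ⟨fun h => h.2, fun h => ⟨h ▸ hz, h⟩⟩
    · rw [if_neg hz, Finset.card_eq_zero, Finset.filter_eq_empty_iff]
      intro v hv hvz
      exact hz (hvz ▸ hv)
  rw [h1, Finset.card_union_of_disjoint, h2, h2]
  rw [Finset.disjoint_left]
  intro v hv hv'
  rw [mem_filter] at hv hv'
  exact hxy (hv.2.symm.trans hv'.2)

theorem ne_of {ends : E → Sym2 V} (hl : ∀ e, ¬ (ends e).IsDiag) {e : E} {x y : V}
    (h : ends e = s(x, y)) : x ≠ y := by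
  rintro rfl
  exact hl e (by rw [h]; rfl)

open Classical in
/-- at most `r` edges in a triangle -/
theorem tri_le [Fintype V] [Fintype E] {r : ℕ} (ends : E → Sym2 V) (hl : ∀ e, ¬ (ends e).IsDiag)
    (hr : ∀ v, (univ.filter fun e => v ∈ ends e).card = r)
    (hcut : ∀ X : Finset V, Odd X.card →
      r ≤ (univ.filter fun e => ∃ u ∈ X, ∃ w ∉ X, ends e = s(u, w)).card)
    {a b c : V} (hab : a ≠ b) (hbc : b ≠ c) (hac : a ≠ c) :
    (univ.filter fun e => ends e = s(a, b) ∨ ends e = s(b, c) ∨ ends e = s(a, c)).card ≤ r := by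
  set X : Finset V := {a, b, c} with hX
  have hXc : X.card = 3 := Finset.card_eq_three.2 ⟨a, b, c, hab, hac, hbc, rfl⟩
  have h1 := hcut X (by rw [hXc]; decide)
  have h2 := dc ends X univ
  rw [Finset.sum_congr rfl (fun v _ => hr v), Finset.sum_const, hXc, smul_eq_mul] at h2
  have h3 : ∑ e, ((if (ends e = s(a, b) ∨ ends e = s(b, c) ∨ ends e = s(a, c)) then 2 else 0)
      + (if (∃ u ∈ X, ∃ w ∉ X, ends e = s(u, w)) then 1 else 0))
      ≤ ∑ e, (X.filter fun t => t ∈ ends e).card := by
    refine Finset.sum_le_sum fun e _ => ?_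
    obtain ⟨x, y, hxy⟩ := ends_cases ends e
    have hne := ne_of hl hxy
    rw [hxy, cnt_ends X hne]
    have hI : (s(x, y) = s(a, b) ∨ s(x, y) = s(b, c) ∨ s(x, y) = s(a, c)) → x ∈ X ∧ y ∈ X := by
      intro h
      simp only [Sym2.eq_iff] at h
      simp only [hX, mem_insert, mem_singleton]
      tauto
    have hJ : (∃ u ∈ X, ∃ w ∉ X, s(x, y) = s(u, w)) → (x ∈ X ∧ y ∉ X) ∨ (x ∉ X ∧ y ∈ X) := by
      rintro ⟨u, hu, w, hw, huw⟩
      rw [Sym2.eq_iff] at huw
      rcases huw with ⟨rfl, rfl⟩ | ⟨rfl, rfl⟩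
      · exact Or.inl ⟨hu, hw⟩
      · exact Or.inr ⟨hw, hu⟩
    by_cases hi : s(x, y) = s(a, b) ∨ s(x, y) = s(b, c) ∨ s(x, y) = s(a, c)
    · obtain ⟨hx, hy⟩ := hI hi
      have hj : ¬ ∃ u ∈ X, ∃ w ∉ X, s(x, y) = s(u, w) := by
        intro h
        rcases hJ h with h | h
        · exact h.2 hy
        · exact h.1 hx
      rw [if_pos hi, if_neg hj, if_pos hx, if_pos hy]
    · rw [if_neg hi]
      by_cases hj : ∃ u ∈ X, ∃ w ∉ X, s(x, y) = s(u, w)
      · rw [if_pos hj]
        rcases hJ hj with ⟨hx, hy⟩ | ⟨hx, hy⟩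
        · rw [if_pos hx]
          omega
        · rw [if_pos hy]
          omega
      · rw [if_neg hj]
        omega
  rw [Finset.sum_add_distrib, ← Finset.sum_filter, ← Finset.sum_filter, Finset.sum_const,
    Finset.sum_const, smul_eq_mul, smul_eq_mul, ← h2] at h3
  omega

open Classical in
/-- an intersecting family has at most `r` edges -/
theorem fam_le [Fintype V] [Fintype E] {r : ℕ} (ends : E → Sym2 V) (hl : ∀ e, ¬ (ends e).IsDiag)
    (hr : ∀ v, (univ.filter fun e => v ∈ ends e).card = r)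
    (hcut : ∀ X : Finset V, Odd X.card →
      r ≤ (univ.filter fun e => ∃ u ∈ X, ∃ w ∉ X, ends e = s(u, w)).card)
    (F : Finset E) (hF : ∀ e ∈ F, ∀ f ∈ F, Sh ends e f) : F.card ≤ r := by
  rcases F.eq_empty_or_nonempty with rfl | hne
  · simp
  rcases star_or_tri hl (F : Set E) (fun e he f hf => hF e (by simpa using he) f (by simpa using hf))
    (by simpa using hne) with ⟨u, hu⟩ | ⟨a, b, c, hab, hbc, hac, -, -, -, h⟩
  · rw [← hr u]
    refine Finset.card_le_card fun e he => ?_
    simp only [mem_filter, mem_univ, true_and]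
    exact hu e (by simpa using he)
  · refine le_trans (Finset.card_le_card fun e he => ?_) (tri_le ends hl hr hcut hab hbc hac)
    simp only [mem_filter, mem_univ, true_and]
    exact h e (by simpa using he)

open Classical in
/-- First family full. -/
theorem fullFam [Fintype V] [Fintype E] {k : ℕ} (ends : E → Sym2 V) (hl : ∀ e, ¬ (ends e).IsDiag)
    (hr : ∀ v, (univ.filter fun e => v ∈ ends e).card = k) (hV : Even (Fintype.card V))
    (side : V → Prop) (F1 : Finset E) (h1 : F1.card = k) (hne : F1.Nonempty)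
    (hm : ∀ e ∈ F1, Mono ends side e)
    (hF1 : ∀ e ∈ F1, ∀ f ∈ F1, Sh ends e f)
    (hin : ∀ a b c, a ≠ b → b ≠ c → a ≠ c → (∃ e ∈ F1, ends e = s(a, b)) →
      (∃ e ∈ F1, ends e = s(b, c)) → (∃ e ∈ F1, ends e = s(a, c)) →
      (∀ e ∈ F1, ends e = s(a, b) ∨ ends e = s(b, c) ∨ ends e = s(a, c)) →
      ∀ e, (ends e = s(a, b) ∨ ends e = s(b, c) ∨ ends e = s(a, c)) → e ∈ F1)
    (hF : ∀ e f, e ∉ F1 → f ∉ F1 → Mono ends side e → Mono ends side f → Sh ends e f) :
    ∃ c : E → Fin k, Proper ends c := by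
  rcases star_or_tri hl (F1 : Set E)
    (fun e he f hf => hF1 e (by simpa using he) f (by simpa using hf))
    (by simpa using hne) with ⟨u, hu⟩ | ⟨a, b, c, hab, hbc, hac, k1, k2, k3, h⟩
  · exact starFam ends hl hr hV side F1 h1 hm hF u (fun e he => hu e (by simpa using he))
  · simp only [mem_coe] at k1 k2 k3 h
    refine triFam ends hl hr hV side F1 h1 a b c hab hbc hac
      (fun e => ⟨h e, hin a b c hab hbc hac k1 k2 k3 h e⟩) ?_ ?_ hF
    · obtain ⟨e, he, he'⟩ := k1
      exact (mono_iff he').1 (hm e he)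
    · obtain ⟨e, he, he'⟩ := k3
      exact (mono_iff he').1 (hm e he)

open Classical in
/-- the two pieces of a splitting -/
theorem pieces [Fintype V] [Fintype E] {r b : ℕ} (ends : E → Sym2 V)
    (hr : ∀ v, (univ.filter fun e => v ∈ ends e).card = r) (X : Finset E) (hb : b ≤ r)
    (hX : ∀ v, (X.filter fun e => v ∈ ends e).card = b)
    (h1 : (∀ v, (univ.filter fun e : {e // e ∈ X} => v ∈ ends e.1).card = b) →
      ∃ c : {e // e ∈ X} → Fin b, Proper (fun e => ends e.1) c)
    (h2 : (∀ v, (univ.filter fun e : {e // e ∉ X} => v ∈ ends e.1).card = r - b) →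
      ∃ c : {e // e ∉ X} → Fin (r - b), Proper (fun e => ends e.1) c) :
    ∃ c : E → Fin r, Proper ends c := by
  refine combine ends (fun e => e ∈ X) b (r - b) r (by omega) (h1 ?_) (h2 ?_)
  · intro v
    rw [← hX v, card_sub (fun e => v ∈ ends e) (fun e => e ∈ X)]
    congr 1
    ext e
    simp
  · intro v
    rw [card_sub (fun e => v ∈ ends e) (fun e => e ∉ X)]
    have e1 := Finset.card_filter_add_card_filter_not (s := univ.filter fun e => v ∈ ends e)
      (fun e => e ∈ X)
    rw [Finset.filter_filter, Finset.filter_filter, hr v] at e1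
    have e2 : (univ.filter fun e => v ∈ ends e ∧ e ∈ X) = X.filter fun e => v ∈ ends e := by
      ext e
      simp [and_comm]
    have e3 : (univ.filter fun e => v ∈ ends e ∧ e ∉ X) = univ.filter fun e => e ∉ X ∧ v ∈ ends e := by
      ext e
      simp [and_comm]
    rw [e2, hX v, e3] at e1
    omega

open Classical in
/-- double counting for one side -/
theorem side_sum [Fintype V] (ends : E → Sym2 V) (hl : ∀ e, ¬ (ends e).IsDiag) (D : Finset E)
    (side : V → Prop) (hD : ∀ e ∈ D, Mono ends side e) :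
    ∑ v ∈ univ.filter (fun v => side v), dg ends D v
      = 2 * (D.filter fun e => ∀ x ∈ ends e, side x).card := by
  have h1 := dc ends (univ.filter fun v => side v) D
  unfold dg
  rw [h1, Finset.card_filter, Finset.mul_sum]
  refine Finset.sum_congr rfl fun e he => ?_
  obtain ⟨x, y, hxy⟩ := ends_cases ends e
  have hm := (mono_iff hxy).1 (hD e he)
  rw [hxy, cnt_ends _ (ne_of hl hxy)]
  simp only [mem_filter, mem_univ, true_and]
  by_cases hx : side x
  · have hy := hm.1 hx
    have hz : ∀ z ∈ s(x, y), side z := by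
      intro z hz
      rw [Sym2.mem_iff] at hz
      rcases hz with rfl | rfl <;> assumption
    rw [if_pos hx, if_pos hy, if_pos hz]
    rfl
  · have hy : ¬ side y := fun h => hx (hm.2 h)
    have hz : ¬ ∀ z ∈ s(x, y), side z := fun h => hx (h x (Sym2.mem_mk_left x y))
    rw [if_neg hx, if_neg hy, if_neg hz]
    rfl

open Classical in
/-- the balance of the two sides -/
theorem balance [Fintype V] [Fintype E] {r : ℕ} (ends : E → Sym2 V) (hl : ∀ e, ¬ (ends e).IsDiag)
    (hr : ∀ v, (univ.filter fun e => v ∈ ends e).card = r) (side : V → Prop) :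
    r * (univ.filter fun v => side v).card + 2 * (univ.filter fun e => ∀ x ∈ ends e, ¬ side x).card
      = r * (univ.filter fun v => ¬ side v).card
        + 2 * (univ.filter fun e => ∀ x ∈ ends e, side x).card := by
  have h1 := dc ends (univ.filter fun v => side v) univ
  have h2 := dc ends (univ.filter fun v => ¬ side v) univ
  rw [Finset.sum_congr rfl (fun v _ => hr v), Finset.sum_const, smul_eq_mul, mul_comm] at h1 h2
  rw [h1, h2, Finset.card_filter, Finset.card_filter, Finset.mul_sum, Finset.mul_sum,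
    ← Finset.sum_add_distrib, ← Finset.sum_add_distrib]
  refine Finset.sum_congr rfl fun e _ => ?_
  obtain ⟨x, y, hxy⟩ := ends_cases ends e
  rw [hxy, cnt_ends _ (ne_of hl hxy), cnt_ends _ (ne_of hl hxy)]
  simp only [mem_filter, mem_univ, true_and, Sym2.mem_iff, forall_eq_or_imp, forall_eq]
  by_cases hx : side x <;> by_cases hy : side y <;> simp [hx, hy]

end Pool.Agent.Helper89.TS
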