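import Mathlib
import Pool.Agent.Helper89.TS.Main

set_option autoImplicit false

/-!
The theorem on two intersecting families of edges.
-/

namespace Pool.Agent.Helper89.TS

open Finset Pool.Agent.Helper51.RG

variable {V E : Type}

open Classical in
/-- all monochromatic edges on one side -/
theorem caseX [Fintype V] [Fintype E] {r : ℕ} (hr0 : 0 < r) (ends : E → Sym2 V)
    (hl : ∀ e, ¬ (ends e).IsDiag)
    (hr : ∀ v, (univ.filter fun e => v ∈ ends e).card = r)
    (hcut : ∀ X : Finset V, Odd X.card →
      r ≤ (univ.filter fun e => ∃ u ∈ X, ∃ w ∉ X, ends e = s(u, w)).card)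
    (hV : Even (Fintype.card V)) (side : V → Prop) (P : E → Prop)
    (hP : ∀ e f, Mono ends side e → Mono ends side f → (P e ↔ P f) → Sh ends e f)
    (hA : ∀ e, ¬ ∀ x ∈ ends e, side x) : ∃ c : E → Fin r, Proper ends c := by
  have hB : ∀ e, Mono ends side e → ∀ x ∈ ends e, ¬ side x := by
    intro e he x hx hsx
    exact hA e fun y hy => (he x hx y hy).1 hsx
  have hBm : ∀ e, (∀ x ∈ ends e, ¬ side x) → Mono ends side e := fun e he x hx y hy =>
    iff_of_false (he x hx) (he y hy)
  set F1 : Finset E := univ.filter fun e => Mono ends side e ∧ P e with hF1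
  set F2 : Finset E := univ.filter fun e => Mono ends side e ∧ ¬ P e with hF2
  have m1 : ∀ e, e ∈ F1 ↔ Mono ends side e ∧ P e := fun e => by simp [hF1]
  have m2 : ∀ e, e ∈ F2 ↔ Mono ends side e ∧ ¬ P e := fun e => by simp [hF2]
  have c1 : F1.card ≤ r := fam_le ends hl hr hcut F1 fun e he f hf => by
    rw [m1] at he hf
    exact hP e f he.1 hf.1 (iff_of_true he.2 hf.2)
  have c2 : F2.card ≤ r := fam_le ends hl hr hcut F2 fun e he f hf => by
    rw [m2] at he hf
    exact hP e f he.1 hf.1 (iff_of_false he.2 hf.2)
  have hFB : (univ.filter fun e => ∀ x ∈ ends e, ¬ side x) = F1 ∪ F2 := by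
    ext e
    rw [mem_union, m1, m2]
    simp only [mem_filter, mem_univ, true_and]
    constructor
    · intro h
      by_cases hp : P e
      · exact Or.inl ⟨hBm e h, hp⟩
      · exact Or.inr ⟨hBm e h, hp⟩
    · rintro (h | h)
      · exact hB e h.1
      · exact hB e h.1
  have hFA : (univ.filter fun e => ∀ x ∈ ends e, side x) = (∅ : Finset E) := by
    rw [Finset.filter_eq_empty_iff]
    intro e _
    exact hA e
  have hbal := balance ends hl hr side
  rw [hFB, hFA, Finset.card_empty, mul_zero, add_zero, Finset.card_union_of_disjoint (by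
    rw [Finset.disjoint_left]
    intro e he he'
    rw [m1] at he
    rw [m2] at he'
    exact he'.2 he.2)] at hbal
  have hcard : (univ.filter fun v => side v).card + (univ.filter fun v => ¬ side v).card
      = Fintype.card V := by
    rw [Finset.card_filter_add_card_filter_not, Finset.card_univ]
  obtain ⟨k, hk⟩ := hV
  have hV : Even (Fintype.card V) := ⟨k, hk⟩
  set nA := (univ.filter fun v => side v).card with hnA
  set nB := (univ.filter fun v => ¬ side v).card with hnB
  have hle : nA ≤ nB := by
    by_contra hc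
    push Not at hc
    have : r * nB < r * nA := Nat.mul_lt_mul_of_pos_left hc hr0
    omega
  obtain ⟨j, hj⟩ : ∃ j, nB = nA + 2 * j := by
    refine ⟨(nB - nA) / 2, ?_⟩
    omega
  have hrj : F1.card + F2.card = r * j := by
    rw [hj, Nat.mul_add r nA] at hbal
    have : r * (2 * j) = 2 * (r * j) := by ring
    omega
  have hj2 : j ≤ 2 := by
    by_contra hc
    push Not at hc
    have : r * 3 ≤ r * j := Nat.mul_le_mul_left r hc
    omega
  have hcases : j = 0 ∨ j = 1 ∨ j = 2 := by omega
  rcases hcases with rfl | rfl | rfl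
  · rw [mul_zero] at hrj
    have e1 : F1 = ∅ := Finset.card_eq_zero.1 (by omega)
    have e2 : F2 = ∅ := Finset.card_eq_zero.1 (by omega)
    refine oneFam ends hl hr hV side fun e f he _ => ?_
    exfalso
    by_cases hp : P e
    · have := (m1 e).2 ⟨he, hp⟩
      rw [e1] at this
      exact absurd this (Finset.notMem_empty e)
    · have := (m2 e).2 ⟨he, hp⟩
      rw [e2] at this
      exact absurd this (Finset.notMem_empty e)
  · rw [mul_one] at hrj
    have s1 : ∑ v ∈ univ.filter (fun v => ¬ side v), dg ends F1 v = 2 * F1.card := by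
      refine Eq.trans ?_ ((side_sum ends hl F1 (fun v => ¬ side v) ?_).trans ?_)
      · exact Finset.sum_congr (by ext; simp) fun _ _ => rfl
      · intro e he x hx y hy
        exact not_congr (((m1 e).1 he).1 x hx y hy)
      · congr 2
        ext e
        simp only [mem_filter]
        exact ⟨fun h => h.1, fun he => ⟨he, hB e ((m1 e).1 he).1⟩⟩
    have s2 : ∑ v ∈ univ.filter (fun v => side v), dg ends F1 v = 0 := by
      rw [side_sum ends hl F1 side (fun e he => ((m1 e).1 he).1)]
      have : (F1.filter fun e => ∀ x ∈ ends e, side x) = ∅ := by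
        rw [Finset.filter_eq_empty_iff]
        intro e _
        exact hA e
      rw [this]
      rfl
    obtain ⟨X, hX1, hX2⟩ := split (b := F1.card) ends hl hr hcut side F1
      (fun e he x y hxy => (mono_iff hxy).1 ((m1 e).1 he).1)
      (fun e x y hxy hx hy => absurd (fun z hz => by
        rw [hxy, Sym2.mem_iff] at hz
        rcases hz with rfl | rfl <;> assumption) (hA e)) c1
      (fun v => Finset.card_filter_le _ _) s1 (by rw [s2, ← hnA, ← hnB, hj]; ring)
    have hXm : ∀ e, Mono ends side e → (e ∈ X ↔ P e) := by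
      intro e he
      obtain ⟨x, y, hxy⟩ := ends_cases ends e
      rw [hX1 e x y hxy ((mono_iff hxy).1 he), m1]
      exact ⟨fun h => h.2, fun h => ⟨he, h⟩⟩
    refine pieces ends hr X c1 hX2 ?_ ?_
    · intro hreg
      refine oneFam (fun e : {e // e ∈ X} => ends e.1) (fun e => hl e.1) hreg hV side ?_
      intro e f he hf
      have pe := (hXm e.1 he).1 e.2
      have pf := (hXm f.1 hf).1 f.2
      exact hP e.1 f.1 he hf (iff_of_true pe pf)
    · intro hreg
      refine oneFam (fun e : {e // e ∉ X} => ends e.1) (fun e => hl e.1) hreg hV side ?_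
      intro e f he hf
      have pe : ¬ P e.1 := fun h => e.2 ((hXm e.1 he).2 h)
      have pf : ¬ P f.1 := fun h => f.2 ((hXm f.1 hf).2 h)
      exact hP e.1 f.1 he hf (iff_of_false pe pf)
  · have h1 : F1.card = r := by omega
    refine fullFam ends hl hr hV side F1 h1 (Finset.card_pos.1 (by omega))
      (fun e he => ((m1 e).1 he).1) (fun e he f hf => ?_) ?_ ?_
    · rw [m1] at he hf
      exact hP e f he.1 hf.1 (iff_of_true he.2 hf.2)
    · intro a b c hab hbc hac _ _ _ hin e he
      have h2 := tri_le ends hl hr hcut hab hbc hac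
      have h3 : F1 = univ.filter fun e => ends e = s(a, b) ∨ ends e = s(b, c) ∨ ends e = s(a, c) := by
        refine Finset.eq_of_subset_of_card_le (fun f hf => ?_) (by omega)
        simp only [mem_filter, mem_univ, true_and]
        exact hin f hf
      rw [h3]
      simp only [mem_filter, mem_univ, true_and]
      exact he
    · intro e f he hf me mf
      rw [m1] at he hf
      have pe : ¬ P e := fun h => he ⟨me, h⟩
      have pf : ¬ P f := fun h => hf ⟨mf, h⟩
      exact hP e f me mf (iff_of_false pe pf)

open Classical in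
/-- monochromatic edges on both sides -/
theorem caseY [Fintype V] [Fintype E] {r : ℕ} (ends : E → Sym2 V)
    (hl : ∀ e, ¬ (ends e).IsDiag)
    (hr : ∀ v, (univ.filter fun e => v ∈ ends e).card = r)
    (hcut : ∀ X : Finset V, Odd X.card →
      r ≤ (univ.filter fun e => ∃ u ∈ X, ∃ w ∉ X, ends e = s(u, w)).card)
    (hV : Even (Fintype.card V)) (side : V → Prop)
    (hA : ∀ e f, (∀ x ∈ ends e, side x) → (∀ x ∈ ends f, side x) → Sh ends e f)
    (hB : ∀ e f, (∀ x ∈ ends e, ¬ side x) → (∀ x ∈ ends f, ¬ side x) → Sh ends e f)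
    (hAn : ∃ e, ∀ x ∈ ends e, side x) (hBn : ∃ e, ∀ x ∈ ends e, ¬ side x) :
    ∃ c : E → Fin r, Proper ends c := by
  have hmono : ∀ e, Mono ends side e ↔ ((∀ x ∈ ends e, side x) ∨ ∀ x ∈ ends e, ¬ side x) := by
    intro e
    constructor
    · intro h
      obtain ⟨x, y, hxy⟩ := ends_cases ends e
      have hx : x ∈ ends e := by
        rw [hxy]
        exact Sym2.mem_mk_left x y
      by_cases hs : side x
      · exact Or.inl fun z hz => (h x hx z hz).1 hs
      · exact Or.inr fun z hz hz' => hs ((h x hx z hz).2 hz')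
    · rintro (h | h) x hx y hy
      · exact iff_of_true (h x hx) (h y hy)
      · exact iff_of_false (h x hx) (h y hy)
  set FA : Finset E := univ.filter fun e => ∀ x ∈ ends e, side x with hFA
  set FB : Finset E := univ.filter fun e => ∀ x ∈ ends e, ¬ side x with hFB
  have mA : ∀ e, e ∈ FA ↔ ∀ x ∈ ends e, side x := fun e => by simp [hFA]
  have mB : ∀ e, e ∈ FB ↔ ∀ x ∈ ends e, ¬ side x := fun e => by simp [hFB]
  have cA : FA.card ≤ r := fam_le ends hl hr hcut FA fun e he f hf =>
    hA e f ((mA e).1 he) ((mA f).1 hf)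
  have cB : FB.card ≤ r := fam_le ends hl hr hcut FB fun e he f hf =>
    hB e f ((mB e).1 he) ((mB f).1 hf)
  have pA : 0 < FA.card := by
    obtain ⟨e, he⟩ := hAn
    exact Finset.card_pos.2 ⟨e, (mA e).2 he⟩
  have pB : 0 < FB.card := by
    obtain ⟨e, he⟩ := hBn
    exact Finset.card_pos.2 ⟨e, (mB e).2 he⟩
  have hbal := balance ends hl hr side
  rw [← hFA, ← hFB] at hbal
  have hcard : (univ.filter fun v => side v).card + (univ.filter fun v => ¬ side v).card
      = Fintype.card V := by
    rw [Finset.card_filter_add_card_filter_not, Finset.card_univ]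
  set nA := (univ.filter fun v => side v).card with hnA
  set nB := (univ.filter fun v => ¬ side v).card with hnB
  have hn : nA = nB := by
    obtain ⟨k, hk⟩ := hV
    rcases Nat.lt_trichotomy nA nB with h | h | h
    · exfalso
      obtain ⟨j, hj⟩ : ∃ j, nB = nA + 2 + j := ⟨nB - nA - 2, by omega⟩
      rw [hj, mul_add, mul_add] at hbal
      omega
    · exact h
    · exfalso
      obtain ⟨j, hj⟩ : ∃ j, nA = nB + 2 + j := ⟨nA - nB - 2, by omega⟩
      rw [hj, mul_add, mul_add] at hbal
      omega
  have hm : FA.card = FB.card := by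
    rw [hn] at hbal
    omega
  have disj : Disjoint FA FB := by
    rw [Finset.disjoint_left]
    intro e he he'
    rw [mA] at he
    rw [mB] at he'
    obtain ⟨x, y, hxy⟩ := ends_cases ends e
    have hx : x ∈ ends e := by
      rw [hxy]
      exact Sym2.mem_mk_left x y
    exact he' x hx (he x hx)
  have mD : ∀ e, e ∈ FA ∪ FB ↔ Mono ends side e := by
    intro e
    rw [mem_union, mA, mB, hmono]
  have fA : ((FA ∪ FB).filter fun e => ∀ x ∈ ends e, side x) = FA := by
    ext e
    simp only [mem_filter, mD]
    rw [mA, hmono]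
    tauto
  have fB : ((FA ∪ FB).filter fun e => ∀ x ∈ ends e, ¬ side x) = FB := by
    ext e
    simp only [mem_filter, mD]
    rw [mB, hmono]
    tauto
  have s1 : ∑ v ∈ univ.filter (fun v => ¬ side v), dg ends (FA ∪ FB) v = 2 * FA.card := by
    refine Eq.trans ?_ ((side_sum ends hl (FA ∪ FB) (fun v => ¬ side v) ?_).trans ?_)
    · exact Finset.sum_congr (by ext; simp) fun _ _ => rfl
    · intro e he x hx y hy
      exact not_congr ((mD e).1 he x hx y hy)
    · rw [hm]
      congr 2
      ext e
      simp only [mem_filter, mD]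
      rw [mB, hmono]
      tauto
  have s2 : ∑ v ∈ univ.filter (fun v => side v), dg ends (FA ∪ FB) v = 2 * FA.card := by
    rw [side_sum ends hl (FA ∪ FB) side (fun e he => (mD e).1 he), fA]
  have hdb : ∀ v, dg ends (FA ∪ FB) v ≤ FA.card := by
    intro v
    unfold dg
    by_cases hv : side v
    · refine Finset.card_le_card fun e he => ?_
      rw [mem_filter, mD, hmono] at he
      rw [mA]
      rcases he.1 with h | h
      · exact h
      · exact absurd hv (h v he.2)
    · rw [hm]
      refine Finset.card_le_card fun e he => ?_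
      rw [mem_filter, mD, hmono] at he
      rw [mB]
      rcases he.1 with h | h
      · exact absurd (h v he.2) hv
      · exact h
  obtain ⟨X, hX1, hX2⟩ := split (b := FA.card) ends hl hr hcut side (FA ∪ FB)
    (fun e he x y hxy => (mono_iff hxy).1 ((mD e).1 he))
    (fun e x y hxy hx hy => (mD e).2 ((mono_iff hxy).2 (iff_of_true hx hy))) cA
    hdb s1 (by rw [s2, ← hnA, ← hnB, hn])
  have hXm : ∀ e, Mono ends side e → e ∈ X := by
    intro e he
    obtain ⟨x, y, hxy⟩ := ends_cases ends e
    rw [hX1 e x y hxy ((mono_iff hxy).1 he), mD]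
    exact he
  refine pieces ends hr X cA hX2 ?_ ?_
  · intro hreg
    refine fullFam (fun e : {e // e ∈ X} => ends e.1) (fun e => hl e.1) hreg hV side
      (univ.filter fun e : {e // e ∈ X} => ∀ x ∈ ends e.1, side x) ?_ ?_ ?_ ?_ ?_ ?_
    · rw [card_sub (fun e => ∀ x ∈ ends e, side x) (fun e => e ∈ X)]
      congr 1
      ext e
      simp only [mem_filter, mem_univ, true_and]
      rw [mA]
      constructor
      · exact fun h => h.2
      · exact fun h => ⟨hXm e ((hmono e).2 (Or.inl h)), h⟩
    · obtain ⟨e, he⟩ := hAn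
      refine ⟨⟨e, hXm e ((hmono e).2 (Or.inl he))⟩, ?_⟩
      simp only [mem_filter, mem_univ, true_and]
      exact he
    · intro e he
      simp only [mem_filter, mem_univ, true_and] at he
      exact (hmono e.1).2 (Or.inl he)
    · intro e he f hf
      simp only [mem_filter, mem_univ, true_and] at he hf
      exact hA e.1 f.1 he hf
    · rintro a b c hab hbc hac ⟨e1, he1, h1⟩ ⟨e2, he2, h2⟩ - - e he
      simp only [mem_filter, mem_univ, true_and] at he1 he2 ⊢
      rw [h1] at he1
      rw [h2] at he2
      have sa := he1 a (Sym2.mem_mk_left a b)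
      have sb := he1 b (Sym2.mem_mk_right a b)
      have sc := he2 c (Sym2.mem_mk_right b c)
      intro x hx
      rcases he with h | h | h <;> rw [h, Sym2.mem_iff] at hx <;> rcases hx with rfl | rfl <;>
        assumption
    · intro e f he hf me mf
      simp only [mem_filter, mem_univ, true_and] at he hf
      have ke := (hmono e.1).1 me
      have kf := (hmono f.1).1 mf
      exact hB e.1 f.1 (ke.resolve_left he) (kf.resolve_left hf)
  · intro hreg
    refine oneFam (fun e : {e // e ∉ X} => ends e.1) (fun e => hl e.1) hreg hV side ?_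
    intro e f he hf
    exact absurd (hXm e.1 he) e.2

open Classical in
/-- **Theorem.** -/
theorem twoFam [Fintype V] [Fintype E] {r : ℕ} (ends : E → Sym2 V)
    (hl : ∀ e, ¬ (ends e).IsDiag)
    (hr : ∀ v, (univ.filter fun e => v ∈ ends e).card = r)
    (hcut : ∀ X : Finset V, Odd X.card →
      r ≤ (univ.filter fun e => ∃ u ∈ X, ∃ w ∉ X, ends e = s(u, w)).card)
    (side : V → Prop) (P : E → Prop)
    (hP : ∀ e f, Mono ends side e → Mono ends side f → (P e ↔ P f) → Sh ends e f) :
    ∃ c : E → Fin r, Proper ends c := by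
  rcases Nat.eq_zero_or_pos r with hr0 | hr0
  · have hE : ∀ e : E, False := by
      intro e
      obtain ⟨x, y, hxy⟩ := ends_cases ends e
      have h1 := hr x
      rw [hr0, Finset.card_eq_zero, Finset.filter_eq_empty_iff] at h1
      exact h1 (mem_univ e) (by rw [hxy]; exact Sym2.mem_mk_left x y)
    exact ⟨fun e => (hE e).elim, fun e => (hE e).elim⟩
  have hV : Even (Fintype.card V) := by
    by_contra hc
    rw [Nat.not_even_iff_odd] at hc
    have h1 := hcut univ (by rw [Finset.card_univ]; exact hc)
    have h2 : (univ.filter fun e => ∃ u ∈ (univ : Finset V), ∃ w ∉ (univ : Finset V),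
        ends e = s(u, w)) = (∅ : Finset E) := by
      rw [Finset.filter_eq_empty_iff]
      rintro e - ⟨u, -, w, hw, -⟩
      exact hw (mem_univ w)
    rw [h2, Finset.card_empty] at h1
    omega
  by_cases hAn : ∃ e, ∀ x ∈ ends e, side x
  · by_cases hBn : ∃ e, ∀ x ∈ ends e, ¬ side x
    · obtain ⟨e0, he0⟩ := hAn
      obtain ⟨f0, hf0⟩ := hBn
      have mA : ∀ e, (∀ x ∈ ends e, side x) → Mono ends side e := fun e he x hx y hy =>
        iff_of_true (he x hx) (he y hy)
      have mB : ∀ e, (∀ x ∈ ends e, ¬ side x) → Mono ends side e := fun e he x hx y hy =>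
        iff_of_false (he x hx) (he y hy)
      have nAB : ∀ e f, (∀ x ∈ ends e, side x) → (∀ x ∈ ends f, ¬ side x) → ¬ (P e ↔ P f) := by
        intro e f he hf hpe
        obtain ⟨v, hv, hv'⟩ := hP e f (mA e he) (mB f hf) hpe
        exact hf v hv' (he v hv)
      refine caseY ends hl hr hcut hV side ?_ ?_ ⟨e0, he0⟩ ⟨f0, hf0⟩
      · intro e f he hf
        have h1 := nAB e f0 he hf0
        have h2 := nAB f f0 hf hf0
        exact hP e f (mA e he) (mA f hf) (by tauto)
      · intro e f he hf
        have h1 := nAB e0 e he0 he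
        have h2 := nAB e0 f he0 hf
        exact hP e f (mB e he) (mB f hf) (by tauto)
    · push Not at hBn
      refine caseX hr0 ends hl hr hcut hV (fun v => ¬ side v) P ?_ ?_
      · intro e f he hf hpe
        refine hP e f ?_ ?_ hpe
        · intro x hx y hy
          exact not_iff_not.1 (he x hx y hy)
        · intro x hx y hy
          exact not_iff_not.1 (hf x hx y hy)
      · intro e he
        obtain ⟨x, hx, hx'⟩ := hBn e
        exact he x hx hx'
  · push Not at hAn
    refine caseX hr0 ends hl hr hcut hV side P hP ?_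
    intro e he
    obtain ⟨x, hx, hx'⟩ := hAn e
    exact hx' (he x hx)

end Pool.Agent.Helper89.TS
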